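import Mathlib

/-! Module PT-Gen -/

set_option autoImplicit false
set_option linter.all false

namespace Pool.Agent.Helper25.PT

open Topology

/-- PT-Gen. A connected group is generated by every neighbourhood of the identity. -/
theorem gen_conn (K : Type) [Group K] [TopologicalSpace K] [IsTopologicalGroup K]
    [ConnectedSpace K] (U : Set K) (hU : U ∈ 𝓝 (1 : K)) (hs : ∀ u ∈ U, u⁻¹ ∈ U) (k : K) :
    ∃ l : List K, (∀ u ∈ l, u ∈ U) ∧ l.prod = k := by
  have h1 : (Subgroup.closure U : Set K) ∈ 𝓝 (1 : K) :=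
    Filter.mem_of_superset hU Subgroup.subset_closure
  have h2 : IsOpen (Subgroup.closure U : Set K) := Subgroup.isOpen_of_mem_nhds _ h1
  have h3 : IsClosed (Subgroup.closure U : Set K) := Subgroup.isClosed_of_isOpen _ h2
  have h4 : (Subgroup.closure U : Set K) = Set.univ :=
    IsClopen.eq_univ ⟨h3, h2⟩ ⟨1, (Subgroup.closure U).one_mem⟩
  have h5 : k ∈ Subgroup.closure U := by
    rw [← SetLike.mem_coe, h4]
    exact Set.mem_univ k
  refine Subgroup.closure_induction (p := fun x _ => ∃ l : List K, (∀ u ∈ l, u ∈ U) ∧ l.prod = x)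
    ?_ ?_ ?_ ?_ h5
  · intro x hx
    exact ⟨[x], by simpa using hx, by simp⟩
  · exact ⟨[], by simp, by simp⟩
  · rintro x y _ _ ⟨l, hl, rfl⟩ ⟨l', hl', rfl⟩
    refine ⟨l ++ l', ?_, by simp⟩
    intro u hu
    rw [List.mem_append] at hu
    rcases hu with h | h
    · exact hl u h
    · exact hl' u h
  · rintro x _ ⟨l, hl, rfl⟩
    refine ⟨(l.map fun u => u⁻¹).reverse, ?_, ?_⟩
    · intro u hu
      rw [List.mem_reverse, List.mem_map] at hu
      obtain ⟨a, ha, rfl⟩ := hu
      exact hs a (hl a ha)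
    · rw [List.prod_inv_reverse]

end Pool.Agent.Helper25.PT
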