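import Pool.Agent.Helper25.PT.Orth

/-! Module PT-Trans -/

set_option autoImplicit false
set_option linter.all false

namespace Pool.Agent.Helper25.PT

private theorem sp_norm {a : ℕ} (x : Sp a) : ‖(x : Eu a)‖ = 1 := by
  have := x.2
  rwa [mem_sphere_zero_iff_norm] at this

private theorem sp_inner {a : ℕ} (x : Sp a) : inner ℝ (x : Eu a) (x : Eu a) = (1 : ℝ) := by
  rw [real_inner_self_eq_norm_sq, sp_norm]
  norm_num

private theorem sp_preconnected {a : ℕ} (ha : 1 ≤ a) : PreconnectedSpace (Sp a) := by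
  have hr : 1 < Module.rank ℝ (Eu a) := by
    rw [← Module.finrank_eq_rank]
    have h1 : Module.finrank ℝ (Eu a) = a + 1 := by simp
    rw [h1]
    exact_mod_cast (by omega : 1 < a + 1)
  exact Subtype.preconnectedSpace (isPreconnected_sphere hr (0 : Eu a) 1)

/-- PT-Trans. The identity component of the orthogonal group is transitive on the sphere. -/
theorem og_trans {a : ℕ} (ha : 1 ≤ a) (x y : Sp a) :
    ∃ u ∈ Subgroup.connectedComponentOfOne (Og a),
      (u : Eu a →L[ℝ] Eu a) (x : Eu a) = (y : Eu a) := by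
  obtain ⟨s, hs, hsf⟩ := exists_refl a
  haveI := sp_preconnected ha
  have h1 : s x * s x = 1 := by
    apply Subtype.ext
    ext1 z
    show ((s x : Og a) : Eu a →L[ℝ] Eu a) (((s x : Og a) : Eu a →L[ℝ] Eu a) z) = z
    rw [hsf, hsf, inner_sub_right, inner_smul_right, sp_inner, sub_eq_iff_eq_add]
    module
  have hmem : ∀ m : Sp a, s m * s x ∈ Subgroup.connectedComponentOfOne (Og a) := by
    intro m
    have hc : Continuous fun m : Sp a => s m * s x := hs.mul continuous_const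
    have hr : IsPreconnected (Set.range fun m : Sp a => s m * s x) := isPreconnected_range hc
    have h1m : (1 : Og a) ∈ Set.range fun m : Sp a => s m * s x := ⟨x, h1⟩
    exact hr.subset_connectedComponent h1m ⟨m, rfl⟩
  have hval : ∀ m : Sp a, ((s m * s x : Og a) : Eu a →L[ℝ] Eu a) (x : Eu a) =
      (2 * inner ℝ (m : Eu a) (x : Eu a)) • (m : Eu a) - (x : Eu a) := by
    intro m
    show ((s m : Og a) : Eu a →L[ℝ] Eu a) (((s x : Og a) : Eu a →L[ℝ] Eu a) (x : Eu a)) = _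
    have h2 : ((s x : Og a) : Eu a →L[ℝ] Eu a) (x : Eu a) = (x : Eu a) := by
      rw [hsf, sp_inner]
      module
    rw [h2, hsf]
  by_cases hxy : (x : Eu a) + (y : Eu a) = 0
  · -- y = -x
    haveI : Fact (Module.finrank ℝ (Eu a) = a + 1) := ⟨by simp⟩
    have hx0 : (x : Eu a) ≠ 0 := by
      intro h
      have := sp_norm x
      rw [h, norm_zero] at this
      norm_num at this
    have hfr := Submodule.finrank_orthogonal_span_singleton (𝕜 := ℝ) (E := Eu a) (n := a) hx0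
    have hnt : Nontrivial (Submodule.span ℝ {(x : Eu a)})ᗮ :=
      Module.nontrivial_of_finrank_pos (R := ℝ) (by rw [hfr]; omega)
    obtain ⟨⟨v, hv⟩, hv0⟩ := exists_ne (0 : (Submodule.span ℝ {(x : Eu a)})ᗮ)
    have hv0' : v ≠ 0 := fun h => hv0 (Subtype.ext h)
    have hvn : ‖v‖ ≠ 0 := norm_ne_zero_iff.2 hv0'
    have hxv : inner ℝ (x : Eu a) v = (0 : ℝ) :=
      (Submodule.mem_orthogonal_singleton_iff_inner_right).1 hv
    have hm : ‖(‖v‖⁻¹ • v : Eu a)‖ = 1 := by
      rw [norm_smul, norm_inv, norm_norm, inv_mul_cancel₀ hvn]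
    let m : Sp a := ⟨‖v‖⁻¹ • v, by rw [mem_sphere_zero_iff_norm]; exact hm⟩
    refine ⟨s m * s x, hmem m, ?_⟩
    rw [hval]
    have h3 : inner ℝ (m : Eu a) (x : Eu a) = (0 : ℝ) := by
      show inner ℝ (‖v‖⁻¹ • v : Eu a) (x : Eu a) = (0 : ℝ)
      rw [inner_smul_left, real_inner_comm, hxv]
      simp
    rw [h3, mul_zero, zero_smul, zero_sub]
    exact (eq_neg_of_add_eq_zero_right hxy).symm
  · have hn : ‖(x : Eu a) + (y : Eu a)‖ ≠ 0 := norm_ne_zero_iff.2 hxy
    have hm : ‖(‖(x : Eu a) + (y : Eu a)‖⁻¹ • ((x : Eu a) + (y : Eu a)) : Eu a)‖ = 1 := by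
      rw [norm_smul, norm_inv, norm_norm, inv_mul_cancel₀ hn]
    let m : Sp a := ⟨‖(x : Eu a) + (y : Eu a)‖⁻¹ • ((x : Eu a) + (y : Eu a)),
      by rw [mem_sphere_zero_iff_norm]; exact hm⟩
    refine ⟨s m * s x, hmem m, ?_⟩
    rw [hval]
    have h4 : ‖(x : Eu a) + (y : Eu a)‖ ^ 2 = 2 * (1 + inner ℝ (y : Eu a) (x : Eu a)) := by
      rw [norm_add_sq_real, sp_norm, sp_norm, real_inner_comm]
      ring
    have h3 : 2 * inner ℝ (m : Eu a) (x : Eu a) = ‖(x : Eu a) + (y : Eu a)‖ := by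
      show 2 * inner ℝ (‖(x : Eu a) + (y : Eu a)‖⁻¹ • ((x : Eu a) + (y : Eu a)) : Eu a)
        (x : Eu a) = _
      rw [inner_smul_left, inner_add_left, sp_inner]
      simp only [map_inv₀, RCLike.conj_to_real]
      have : 2 * (‖(x : Eu a) + (y : Eu a)‖⁻¹ * (1 + inner ℝ (y : Eu a) (x : Eu a))) =
          ‖(x : Eu a) + (y : Eu a)‖⁻¹ * (2 * (1 + inner ℝ (y : Eu a) (x : Eu a))) := by ring
      rw [this, ← h4, pow_two, ← mul_assoc, inv_mul_cancel₀ hn, one_mul]
    rw [h3]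
    show ‖(x : Eu a) + (y : Eu a)‖ • (‖(x : Eu a) + (y : Eu a)‖⁻¹ •
      ((x : Eu a) + (y : Eu a)) : Eu a) - (x : Eu a) = (y : Eu a)
    rw [smul_smul, mul_inv_cancel₀ hn, one_smul, add_sub_cancel_left]

end Pool.Agent.Helper25.PT
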