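import Pool.Agent.Helper25.PT.Haar
import Pool.Agent.Helper25.PT.Gen
import Pool.Agent.Helper25.PT.Trans

/-! Module PT-ActEx -/

set_option autoImplicit false
set_option linter.all false

namespace Pool.Agent.Helper25.PT

open MeasureTheory Topology

/-- the identity component of the orthogonal group -/
private noncomputable abbrev ActK (a : ℕ) := Subgroup.connectedComponentOfOne (Og a)

private noncomputable instance actK_cpt (a : ℕ) : CompactSpace (ActK a) := by
  haveI := og_compact a
  have h : IsClosed ((ActK a : Set (Og a))) := isClosed_connectedComponent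
  exact isCompact_iff_compactSpace.1 h.isCompact

private noncomputable instance actK_sc (a : ℕ) : SecondCountableTopology (ActK a) := by
  haveI := og_secondCountable a
  infer_instance

private noncomputable instance actK_conn (a : ℕ) : ConnectedSpace (ActK a) := by
  have h : IsConnected ((ActK a : Set (Og a))) := isConnected_connectedComponent
  exact isConnected_iff_connectedSpace.1 h

private noncomputable instance actK_meas (a : ℕ) : MeasurableSpace (ActK a) := borel _

private instance actK_borel (a : ℕ) : BorelSpace (ActK a) := ⟨rfl⟩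

private noncomputable instance actK_act (a : ℕ) : MulAction (ActK a) (Sp a) where
  smul u x := ⟨(((u : Og a) : Eu a →L[ℝ] Eu a)) (x : Eu a), by
    rw [mem_sphere_zero_iff_norm, og_norm]
    exact mem_sphere_zero_iff_norm.1 x.2⟩
  one_smul x := by
    apply Subtype.ext
    rfl
  mul_smul u v x := by
    apply Subtype.ext
    rfl

private theorem actK_smul {a : ℕ} (u : ActK a) (x : Sp a) :
    ((u • x : Sp a) : Eu a) = (((u : Og a) : Eu a →L[ℝ] Eu a)) (x : Eu a) := rfl

private theorem actK_dist_eq {a : ℕ} (u v : ActK a) : dist u v =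
    ‖(((u : Og a) : Eu a →L[ℝ] Eu a)) - (((v : Og a) : Eu a →L[ℝ] Eu a))‖ := by
  rw [Subtype.dist_eq, Subtype.dist_eq, dist_eq_norm]

private theorem actK_dist {a : ℕ} (u v : ActK a) (x : Sp a) :
    dist (u • x) (v • x) ≤ dist u v := by
  rw [actK_dist_eq, Subtype.dist_eq, actK_smul, actK_smul, dist_eq_norm, ← ContinuousLinearMap.sub_apply]
  have h1 := ContinuousLinearMap.le_opNorm
    ((((u : Og a) : Eu a →L[ℝ] Eu a)) - (((v : Og a) : Eu a →L[ℝ] Eu a))) (x : Eu a)
  have h2 : ‖(x : Eu a)‖ = 1 := mem_sphere_zero_iff_norm.1 x.2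
  rw [h2, mul_one] at h1
  exact h1

/-- PT-ActEx. Existence of the group. Take `K = Subgroup.connectedComponentOfOne (Og a)` with its
Borel sets. -/
theorem exists_act {a : ℕ} (ha : 1 ≤ a) : Nonempty (Act a) := by
  obtain ⟨μ, h1, h2, h3⟩ := haar2 (ActK a)
  refine ⟨{ K := ActK a, μ := μ, dist_smul := ?_, smul_neg := ?_, meas_smul := ?_, trans := ?_,
            gen := ?_, net := ?_ }⟩
  · intro k x y
    rw [Subtype.dist_eq, Subtype.dist_eq, actK_smul, actK_smul, dist_eq_norm, dist_eq_norm,
      ← map_sub, og_norm]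
  · intro k x
    apply Subtype.ext
    rw [actK_smul]
    show _ = -((k • x : Sp a) : Eu a)
    rw [actK_smul]
    exact map_neg _ _
  · intro x
    apply Continuous.measurable
    apply Continuous.subtype_mk
    have h : Continuous fun k : ActK a => (((k : Og a) : Eu a →L[ℝ] Eu a)) :=
      continuous_subtype_val.comp continuous_subtype_val
    exact h.clm_apply continuous_const
  · intro x y
    obtain ⟨u, hu, hux⟩ := og_trans ha x y
    exact ⟨⟨u, hu⟩, Subtype.ext hux⟩
  · intro η hη k
    have hU : ∀ u ∈ Metric.ball (1 : ActK a) η, u⁻¹ ∈ Metric.ball (1 : ActK a) η := by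
      intro u hu
      rw [Metric.mem_ball] at hu ⊢
      have h4 : dist (u⁻¹) 1 = dist u 1 := by
        rw [actK_dist_eq, actK_dist_eq]
        have h5 : (((u⁻¹ : ActK a) : Og a) : Eu a →L[ℝ] Eu a) =
            star (((u : Og a) : Eu a →L[ℝ] Eu a)) := rfl
        have h6 : (((1 : ActK a) : Og a) : Eu a →L[ℝ] Eu a) = 1 := rfl
        rw [h5, h6, ← norm_star, star_sub, star_star, star_one]
      rw [h4]
      exact hu
    obtain ⟨l, hl, hlk⟩ := gen_conn (ActK a) (Metric.ball 1 η) (Metric.ball_mem_nhds _ hη) hU k
    · refine ⟨l, fun u hu x => ?_, hlk⟩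
      have h := actK_dist u 1 x
      rw [one_smul] at h
      exact lt_of_le_of_lt h (hl u hu)
  · intro η hη
    obtain ⟨T, hT, hT'⟩ := Metric.totallyBounded_iff.1
      (isCompact_univ (X := ActK a)).totallyBounded η hη
    refine ⟨T, hT, fun k => ?_⟩
    have h := hT' (Set.mem_univ k)
    simp only [Set.mem_iUnion, Metric.mem_ball] at h
    obtain ⟨t, ht, hkt⟩ := h
    refine ⟨t, ht, fun x => ?_⟩
    rw [dist_comm] at hkt
    exact lt_of_le_of_lt (actK_dist t k x) hkt

end Pool.Agent.Helper25.PT
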