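import Pool.Agent.Helper25.PT.Defs

/-! Module PT-Net -/

set_option autoImplicit false
set_option linter.all false

namespace Pool.Agent.Helper25.PT

/-- PT-Net. Measurable finite nets of the sphere. -/
theorem exists_net (m : ℕ) (ε : ℝ) (hε : 0 < ε) : ∃ (n : ℕ) (c : Fin (n + 1) → Sp m)
    (q : Sp m → Fin (n + 1)), Measurable q ∧ ∀ x, dist x (c (q x)) < ε := by
  classical
  have hc : IsCompact (Set.univ : Set (Sp m)) := isCompact_univ
  obtain ⟨t, -, htf, htc⟩ := hc.finite_cover_balls hε
  obtain ⟨x0⟩ : Nonempty (Sp m) := by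
    refine ⟨⟨EuclideanSpace.single 0 1, ?_⟩⟩
    simp
  -- enumerate t
  obtain ⟨n, c, hcr⟩ : ∃ (n : ℕ) (c : Fin (n + 1) → Sp m), t ⊆ Set.range c := by
    have : Fintype t := htf.fintype
    let e := Fintype.equivFin t
    refine ⟨Fintype.card t, fun i => if h : i.val < Fintype.card t then (e.symm ⟨i.val, h⟩ : Sp m)
      else x0, ?_⟩
    intro y hy
    refine ⟨⟨(e ⟨y, hy⟩).val, Nat.lt_succ_of_lt (e ⟨y, hy⟩).isLt⟩, ?_⟩
    show (if h : (e ⟨y, hy⟩).val < Fintype.card t then (e.symm ⟨(e ⟨y, hy⟩).val, h⟩ : Sp m)
      else x0) = y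
    rw [dif_pos (e ⟨y, hy⟩).isLt]
    exact congrArg Subtype.val (e.symm_apply_apply ⟨y, hy⟩)
  have hcov : ∀ x : Sp m, ∃ i : Fin (n + 1), dist x (c i) < ε := by
    intro x
    have := htc (Set.mem_univ x)
    simp only [Set.mem_iUnion, Metric.mem_ball] at this
    obtain ⟨y, hy, hxy⟩ := this
    obtain ⟨i, rfl⟩ := hcr hy
    exact ⟨i, hxy⟩
  refine ⟨n, c, fun x => Finset.min' (Finset.univ.filter fun i => dist x (c i) < ε) ?_, ?_, ?_⟩
  · obtain ⟨i, hi⟩ := hcov x
    exact ⟨i, by simpa using hi⟩
  · refine measurable_to_countable' fun i => ?_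
    have : (fun x => Finset.min' (Finset.univ.filter fun i => dist x (c i) < ε) (by
        obtain ⟨i, hi⟩ := hcov x
        exact ⟨i, by simpa using hi⟩)) ⁻¹' {i} =
        {x | dist x (c i) < ε} ∩ ⋂ j : Fin (n + 1), ⋂ _ : j < i, {x | dist x (c j) < ε}ᶜ := by
      ext x
      simp only [Set.mem_preimage, Set.mem_singleton_iff, Set.mem_inter_iff, Set.mem_setOf_eq,
        Set.mem_iInter, Set.mem_compl_iff]
      constructor
      · intro h
        have hm := Finset.min'_mem (Finset.univ.filter fun i => dist x (c i) < ε) (by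
          obtain ⟨i, hi⟩ := hcov x
          exact ⟨i, by simpa using hi⟩)
        rw [h] at hm
        refine ⟨by simpa using hm, ?_⟩
        intro j hj hd
        have := Finset.min'_le (Finset.univ.filter fun i => dist x (c i) < ε) j (by simpa using hd)
        rw [h] at this
        exact absurd hj (not_lt.mpr this)
      · rintro ⟨h1, h2⟩
        apply le_antisymm
        · exact Finset.min'_le _ _ (by simpa using h1)
        · apply Finset.le_min'
          intro j hj
          by_contra hlt
          exact h2 j (not_le.mp hlt) (by simpa using hj)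
    rw [this]
    refine MeasurableSet.inter ?_ (MeasurableSet.iInter fun j => MeasurableSet.iInter fun _ => ?_)
    · exact measurableSet_lt (measurable_id.dist measurable_const) measurable_const
    · exact (measurableSet_lt (measurable_id.dist measurable_const) measurable_const).compl
  · intro x
    have hm := Finset.min'_mem (Finset.univ.filter fun i => dist x (c i) < ε) (by
      obtain ⟨i, hi⟩ := hcov x
      exact ⟨i, by simpa using hi⟩)
    simpa using hm

end Pool.Agent.Helper25.PT
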