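import Pool.Agent.Helper25.PT.Infl

/-! Module PT-Inv -/

set_option autoImplicit false
set_option linter.all false

namespace Pool.Agent.Helper25.PT

open MeasureTheory

open Classical in
theorem inv_pv_meas {a : ℕ} (X : Act a) {F V : Type} [Fintype F] {r n : ℕ}
    (ψ : Fin (r + 1) → X.K) (q : Sp a → Fin n) (hq : Measurable q) (h : (F → Fin n) → V)
    (z : (F → X.K) → F → Sp a) (p : (F → X.K) → Sp a) (i : F) (v : V)
    (hz : ∀ j, j ≠ i → ∀ l, Measurable fun ρ => q (ψ l • z ρ j))
    (hp : Measurable fun ρ => q (p ρ)) :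
    Measurable fun ρ : F → X.K => Pv X ψ (fun z => h fun j => q (z j)) (z ρ) i v (p ρ) := by
  unfold Pv
  refine Measurable.div_const (Finset.measurable_sum _ fun δ _ => ?_) _
  have h1 : Measurable fun ρ : F → X.K => fun j =>
      q (Function.update (fun j => ψ (δ j) • z ρ j) i (p ρ) j) := by
    refine measurable_pi_iff.2 fun j => ?_
    by_cases hj : j = i
    · subst hj
      simpa using hp
    · simpa [Function.update_of_ne hj] using hz j hj (δ j)
  have h2 : Measurable fun u : F → Fin n => if h u = v then (1 : ℝ) else 0 :=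
    measurable_of_finite _
  exact h2.comp h1

open Classical in
/-- PT-Inv-a. Measurability. -/
theorem infl_meas {a : ℕ} (X : Act a) {F V : Type} [Fintype F] [Fintype V] {r n : ℕ}
    (ψ : Fin (r + 1) → X.K) (q : Sp a → Fin n) (hq : Measurable q) (h : (F → Fin n) → V)
    (e : Sp a) (c : F → Sp a) (w : X.K) (i : F) :
    Measurable fun ρ : F → X.K => Infl X ψ (fun z => h fun j => q (z j))
      (Function.update (fun j => ρ j • c j) i (w • ρ i • e)) i := by
  unfold Infl
  refine Finset.measurable_sum _ fun v _ => Finset.measurable_sum _ fun l _ => ?_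
  have hz : ∀ j, j ≠ i → ∀ l, Measurable fun ρ : F → X.K =>
      q (ψ l • (Function.update (fun j => ρ j • c j) i (w • ρ i • e)) j) := by
    intro j hj l
    have h1 : Measurable fun ρ : F → X.K => (ψ l * ρ j) • c j :=
      (X.meas_smul (c j)).comp (measurable_const.mul (measurable_pi_apply j))
    have h2 := hq.comp h1
    convert h2 using 2 with ρ
    rw [Function.update_of_ne hj, Function.comp, mul_smul]
  have hp : Measurable fun ρ : F → X.K =>
      q ((Function.update (fun j => ρ j • c j) i (w • ρ i • e)) i) := by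
    have h1 : Measurable fun ρ : F → X.K => (w * ρ i) • e :=
      (X.meas_smul e).comp (measurable_const.mul (measurable_pi_apply i))
    have h2 := hq.comp h1
    convert h2 using 2 with ρ
    rw [Function.update_self, Function.comp, mul_smul]
  have hp' : Measurable fun ρ : F → X.K =>
      q (ψ l • (Function.update (fun j => ρ j • c j) i (w • ρ i • e)) i) := by
    have h1 : Measurable fun ρ : F → X.K => (ψ l * (w * ρ i)) • e :=
      (X.meas_smul e).comp
        (measurable_const.mul (measurable_const.mul (measurable_pi_apply i)))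
    have h2 := hq.comp h1
    convert h2 using 2 with ρ
    rw [Function.update_self, Function.comp, mul_smul, mul_smul]
  exact ((inv_pv_meas X ψ q hq h _ _ i v hz hp').sub
    (inv_pv_meas X ψ q hq h _ _ i v hz hp)).pow_const 2

/-- PT-Inv-b. A bound. -/
theorem infl_le {a : ℕ} (X : Act a) {F V : Type} [Fintype F] [Fintype V] {r : ℕ}
    (ψ : Fin (r + 1) → X.K) (h0 : ψ 0 = 1) (f : (F → Sp a) → V) (z : F → Sp a) (i : F) :
    Infl X ψ f z i ≤ ((r : ℝ) + 2) * (r + 1) :=
  (Finset.single_le_sum (f := fun i => Infl X ψ f z i) (fun j _ => Infl_nonneg X ψ f z j)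
    (Finset.mem_univ i)).trans (Infl_sum X ψ f h0 z)

theorem inv_meas0 {a : ℕ} (X : Act a) {F V : Type} [Fintype F] [Fintype V] {r n : ℕ}
    (ψ : Fin (r + 1) → X.K) (q : Sp a → Fin n) (hq : Measurable q) (h : (F → Fin n) → V)
    (e : Sp a) (i : F) :
    Measurable fun ρ : F → X.K => Infl X ψ (fun z => h fun j => q (z j))
      (fun j => ρ j • e) i := by
  classical
  have h1 := infl_meas X ψ q hq h e (fun _ => e) 1 i
  convert h1 using 3 with ρ
  funext j
  by_cases hj : j = i
  · subst hj
    rw [Function.update_self, one_smul]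
  · rw [Function.update_of_ne hj]

open Classical in
/-- PT-Inv-c. Invariance. -/
theorem infl_inv {a : ℕ} (X : Act a) {F V : Type} [Fintype F] [Fintype V] {r n : ℕ}
    (ψ : Fin (r + 1) → X.K) (h0 : ψ 0 = 1) (q : Sp a → Fin n) (hq : Measurable q)
    (h : (F → Fin n) → V) (e : Sp a) (c : F → Sp a) (w : X.K) (i : F) :
    ∫ ρ : F → X.K, Infl X ψ (fun z => h fun j => q (z j))
        (Function.update (fun j => ρ j • c j) i (w • ρ i • e)) i ∂(Measure.pi fun _ => X.μ) =
      ∫ ρ : F → X.K, Infl X ψ (fun z => h fun j => q (z j)) (fun j => ρ j • e) i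
        ∂(Measure.pi fun _ => X.μ) := by
  choose κ hκ using fun j => X.trans e (c j)
  have hpres : MeasurePreserving
      (fun (ρ : F → X.K) (j : F) => (if j = i then fun k : X.K => w * k else fun k => k * κ j) (ρ j))
      (Measure.pi fun _ => X.μ) (Measure.pi fun _ => X.μ) := by
    refine measurePreserving_pi (fun _ : F => X.μ) (fun _ : F => X.μ) fun j => ?_
    split_ifs
    · exact measurePreserving_mul_left X.μ w
    · exact measurePreserving_mul_right X.μ (κ j)
  have hm := inv_meas0 X ψ q hq h e i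
  have h1 := integral_map (μ := Measure.pi fun _ : F => X.μ) hpres.measurable.aemeasurable
    (f := fun ρ : F → X.K => Infl X ψ (fun z => h fun j => q (z j)) (fun j => ρ j • e) i)
    hm.aestronglyMeasurable
  rw [hpres.map_eq] at h1
  rw [h1]
  refine integral_congr_ae (Filter.Eventually.of_forall fun ρ => ?_)
  show Infl X ψ _ _ i = Infl X ψ _ _ i
  congr 1
  funext j
  by_cases hj : j = i
  · subst hj
    rw [Function.update_self]
    simp only [if_true]
    rw [mul_smul]
  · rw [Function.update_of_ne hj]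
    simp only [if_neg hj]
    rw [mul_smul, hκ]

theorem inv_integrable {a : ℕ} (X : Act a) {F V : Type} [Fintype F] [Fintype V] {r n : ℕ}
    (ψ : Fin (r + 1) → X.K) (h0 : ψ 0 = 1) (f : (F → Sp a) → V) (z : (F → X.K) → F → Sp a)
    (i : F) (hm : Measurable fun ρ : F → X.K => Infl X ψ f (z ρ) i) :
    Integrable (fun ρ : F → X.K => Infl X ψ f (z ρ) i) (Measure.pi fun _ => X.μ) := by
  refine Integrable.of_bound hm.aestronglyMeasurable (((r : ℝ) + 2) * (r + 1))
    (Filter.Eventually.of_forall fun ρ => ?_)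
  rw [Real.norm_eq_abs, abs_of_nonneg (Infl_nonneg X ψ f _ i)]
  exact infl_le X ψ h0 f _ i

/-- PT-Inv-d. The sum. -/
theorem infl_int_sum {a : ℕ} (X : Act a) {F V : Type} [Fintype F] [Fintype V] {r n : ℕ}
    (ψ : Fin (r + 1) → X.K) (h0 : ψ 0 = 1) (q : Sp a → Fin n) (hq : Measurable q)
    (h : (F → Fin n) → V) (e : Sp a) :
    ∑ i, ∫ ρ : F → X.K, Infl X ψ (fun z => h fun j => q (z j)) (fun j => ρ j • e) i
        ∂(Measure.pi fun _ => X.μ) ≤ ((r : ℝ) + 2) * (r + 1) := by
  have hi : ∀ i, Integrable (fun ρ : F → X.K => Infl X ψ (fun z => h fun j => q (z j))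
      (fun j => ρ j • e) i) (Measure.pi fun _ => X.μ) := fun i =>
    inv_integrable (n := n) X ψ h0 _ (fun ρ j => ρ j • e) i (inv_meas0 X ψ q hq h e i)
  rw [← integral_finset_sum _ fun i _ => hi i]
  refine (integral_mono (integrable_finset_sum _ fun i _ => hi i)
    (integrable_const (((r : ℝ) + 2) * (r + 1))) fun ρ => ?_).trans (le_of_eq ?_)
  · exact Infl_sum X ψ _ h0 _
  · simp

open Classical in
/-- PT-Inv-e. A good point. `T` is a finite set of tests. -/
theorem exists_rho {a : ℕ} (X : Act a) {F V : Type} [Fintype F] [Fintype V] {r n : ℕ}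
    (ψ : Fin (r + 1) → X.K) (h0 : ψ 0 = 1) (q : Sp a → Fin n) (hq : Measurable q)
    (h : (F → Fin n) → V) (e : Sp a) (i : F) (T : Finset ((F → Sp a) × X.K)) (η : ℝ) (hη : 0 < η)
    (hT : (T.card : ℝ) * (∫ ρ : F → X.K, Infl X ψ (fun z => h fun j => q (z j))
      (fun j => ρ j • e) i ∂(Measure.pi fun _ => X.μ)) < η) :
    ∃ ρ : F → X.K, ∀ t ∈ T, Infl X ψ (fun z => h fun j => q (z j))
      (Function.update (fun j => ρ j • t.1 j) i (t.2 • ρ i • e)) i < η := by
  by_contra hcon
  push Not at hcon
  have hi : ∀ t ∈ T, Integrable (fun ρ : F → X.K => Infl X ψ (fun z => h fun j => q (z j))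
      (Function.update (fun j => ρ j • t.1 j) i (t.2 • ρ i • e)) i)
      (Measure.pi fun _ => X.μ) := fun t _ =>
    inv_integrable (n := n) X ψ h0 _
      (fun ρ => Function.update (fun j => ρ j • t.1 j) i (t.2 • ρ i • e)) i
      (infl_meas X ψ q hq h e t.1 t.2 i)
  have h1 : ∫ ρ : F → X.K, ∑ t ∈ T, Infl X ψ (fun z => h fun j => q (z j))
      (Function.update (fun j => ρ j • t.1 j) i (t.2 • ρ i • e)) i
        ∂(Measure.pi fun _ => X.μ) = (T.card : ℝ) *
      (∫ ρ : F → X.K, Infl X ψ (fun z => h fun j => q (z j))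
        (fun j => ρ j • e) i ∂(Measure.pi fun _ => X.μ)) := by
    rw [integral_finset_sum _ hi, Finset.sum_congr rfl fun t _ =>
      infl_inv X ψ h0 q hq h e t.1 t.2 i, Finset.sum_const, nsmul_eq_mul]
  have h2 : η ≤ ∫ ρ : F → X.K, ∑ t ∈ T, Infl X ψ (fun z => h fun j => q (z j))
      (Function.update (fun j => ρ j • t.1 j) i (t.2 • ρ i • e)) i
        ∂(Measure.pi fun _ => X.μ) := by
    have h3 : ∫ ρ : F → X.K, η ∂(Measure.pi fun _ => X.μ) = η := by simp
    refine h3.symm.le.trans (integral_mono (integrable_const η)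
      (integrable_finset_sum _ hi) fun ρ => ?_)
    obtain ⟨t, ht, hle⟩ := hcon ρ
    exact hle.trans (Finset.single_le_sum
      (f := fun t : (F → Sp a) × X.K => Infl X ψ (fun z => h fun j => q (z j))
        (Function.update (fun j => ρ j • t.1 j) i (t.2 • ρ i • e)) i)
      (fun t _ => Infl_nonneg X ψ _ _ i) ht)
  rw [h1] at h2
  exact absurd hT (not_lt.2 h2)

end Pool.Agent.Helper25.PT
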