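import Pool.Agent.Helper25.PT.Infl

/-! Module PT-Pop -/

set_option autoImplicit false
set_option linter.all false

namespace Pool.Agent.Helper25.PT

section

variable {a : ℕ} (X : Act a) {F V : Type} [Fintype F] {r : ℕ} (ψ : Fin (r + 1) → X.K)
  (f : (F → Sp a) → V)

open Classical in
theorem pop_infl [Fintype V] (z : F → Sp a) (i : F) (p : Sp a) :
    Infl X ψ f (Function.update z i p) i =
      ∑ v, ∑ l, (Pv X ψ f z i v (ψ l • p) - Pv X ψ f z i v p) ^ 2 := by
  unfold Infl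
  refine Finset.sum_congr rfl fun v _ => Finset.sum_congr rfl fun l _ => ?_
  have h : ∀ j, j ≠ i → Function.update z i p j = z j := fun j hj =>
    Function.update_of_ne hj _ _
  rw [Pv_congr X ψ f h, Pv_congr X ψ f h, Function.update_self]

open Classical in
theorem pop_step [Fintype V] (z : F → Sp a) (i : F) (p : Sp a) (c : ℝ) (hc : 0 ≤ c)
    (hI : Infl X ψ f (Function.update z i p) i < c ^ 2) (v : V) (l : Fin (r + 1)) :
    Pv X ψ f z i v p - c ≤ Pv X ψ f z i v (ψ l • p) := by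
  rw [pop_infl] at hI
  have h1 : (Pv X ψ f z i v (ψ l • p) - Pv X ψ f z i v p) ^ 2 ≤
      ∑ l, (Pv X ψ f z i v (ψ l • p) - Pv X ψ f z i v p) ^ 2 :=
    Finset.single_le_sum
      (f := fun l => (Pv X ψ f z i v (ψ l • p) - Pv X ψ f z i v p) ^ 2)
      (fun _ _ => sq_nonneg _) (Finset.mem_univ l)
  have h2 : ∑ l, (Pv X ψ f z i v (ψ l • p) - Pv X ψ f z i v p) ^ 2 ≤
      ∑ v, ∑ l, (Pv X ψ f z i v (ψ l • p) - Pv X ψ f z i v p) ^ 2 :=
    Finset.single_le_sum
      (f := fun v => ∑ l, (Pv X ψ f z i v (ψ l • p) - Pv X ψ f z i v p) ^ 2)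
      (fun _ _ => Finset.sum_nonneg fun _ _ => sq_nonneg _) (Finset.mem_univ v)
  have h3 : (Pv X ψ f z i v (ψ l • p) - Pv X ψ f z i v p) ^ 2 < c ^ 2 :=
    (h1.trans h2).trans_lt hI
  have h4 := abs_lt_of_sq_lt_sq h3 hc
  have h5 := (abs_lt.mp h4).1
  linarith

end

open Classical in
/-- PT-Pop. A popular value. -/
theorem popular {a : ℕ} (X : Act a) {F V : Type} [Fintype F] [Fintype V] {r : ℕ}
    (ψ : Fin (r + 1) → X.K) (f : (F → Sp a) → V) (η : ℝ)
    (h1 : ∀ l (x : Sp a), dist (ψ l • x) x < η) (L : ℕ) (p0 : Sp a)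
    (h2 : ∀ p : Sp a, ∃ w : List (Fin (r + 1)), w.length ≤ L ∧ dist ((w.map ψ).prod • p0) p < η)
    (z : F → Sp a) (i : F)
    (hI : ∀ w : List (Fin (r + 1)), w.length ≤ L →
      Infl X ψ f (Function.update z i ((w.map ψ).prod • p0)) i <
        1 / (((L : ℝ) + 1) * Fintype.card V) ^ 2) :
    ∃ v : V, ∀ p : Sp a, ∃ u : F → Sp a, dist (u i) p < η ∧
      (∀ j, j ≠ i → dist (u j) (z j) < η) ∧ f u = v := by
  have hne : Nonempty V := by
    by_contra hcon
    rw [not_nonempty_iff] at hcon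
    have := Pv_sum X ψ f z i p0
    simp at this
  have hV : (0 : ℝ) < Fintype.card V := by
    exact_mod_cast Fintype.card_pos
  have hL : (0 : ℝ) < (L : ℝ) + 1 := by positivity
  obtain ⟨c, hc⟩ : ∃ c : ℝ, c = 1 / (((L : ℝ) + 1) * Fintype.card V) := ⟨_, rfl⟩
  have hc0 : 0 ≤ c := by rw [hc]; positivity
  obtain ⟨v, hv⟩ : ∃ v : V, 1 / (Fintype.card V : ℝ) ≤ Pv X ψ f z i v p0 := by
    by_contra hcon
    push Not at hcon
    have h3 : ∑ v, Pv X ψ f z i v p0 < ∑ v : V, 1 / (Fintype.card V : ℝ) :=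
      Finset.sum_lt_sum_of_nonempty Finset.univ_nonempty fun v _ => hcon v
    rw [Pv_sum X ψ f z i p0, Finset.sum_const, Finset.card_univ, nsmul_eq_mul,
      mul_one_div_cancel hV.ne'] at h3
    exact lt_irrefl _ h3
  have key : ∀ w : List (Fin (r + 1)), w.length ≤ L →
      Pv X ψ f z i v p0 - w.length * c ≤ Pv X ψ f z i v ((w.map ψ).prod • p0) := by
    intro w
    induction w with
    | nil => intro _; simp
    | cons l w ih =>
      intro hw
      rw [List.length_cons] at hw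
      have h3 := ih (by omega)
      have h4 := pop_step X ψ f z i ((w.map ψ).prod • p0) c hc0 (by
        rw [hc, div_pow, one_pow]
        exact hI w (by omega)) v l
      rw [List.map_cons, List.prod_cons, mul_smul, List.length_cons]
      push_cast
      linarith
  refine ⟨v, fun p => ?_⟩
  obtain ⟨w, hw, hd⟩ := h2 p
  have h5 : 0 < Pv X ψ f z i v ((w.map ψ).prod • p0) := by
    refine lt_of_lt_of_le ?_ (key w hw)
    have h6 : (w.length : ℝ) * c ≤ L * c := by
      refine mul_le_mul_of_nonneg_right ?_ hc0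
      exact_mod_cast hw
    have h7 : (L : ℝ) * c < 1 / (Fintype.card V : ℝ) := by
      rw [hc, mul_one_div, div_lt_div_iff₀ (by positivity) hV, one_mul]
      have : (L : ℝ) * Fintype.card V < ((L : ℝ) + 1) * Fintype.card V :=
        mul_lt_mul_of_pos_right (by linarith) hV
      exact this
    linarith
  obtain ⟨u, hu1, hu2, hu3⟩ := Pv_pos X ψ f z i v _ h5
  refine ⟨u, ?_, ?_, hu3⟩
  · rw [hu1]
    exact hd
  · intro j hj
    obtain ⟨l, hl⟩ := hu2 j hj
    rw [hl]
    exact h1 l (z j)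

end Pool.Agent.Helper25.PT
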