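import Pool.Agent.Helper25.PT.Words
import Pool.Agent.Helper25.PT.Inv
import Pool.Agent.Helper25.PT.Pop

/-! Module PT-Noise -/

set_option autoImplicit false
set_option linter.all false

namespace Pool.Agent.Helper25.PT

theorem noise_sph (a : ℕ) : Nonempty (Sp a) := by
  have h : (Metric.sphere (0 : Eu a) 1).Nonempty :=
    NormedSpace.sphere_nonempty.2 zero_le_one
  exact h.to_subtype

open Classical in
/-- the tests -/
noncomputable def noiseTests {a : ℕ} (X : Act a) {F : Type} {r : ℕ} (ψ : Fin (r + 1) → X.K)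
    (N0 : Finset (Sp a)) (W : Finset (List (Fin (r + 1)))) (A : Set F) :
    Finset ((F → Sp a) × X.K) :=
  (N0 ×ˢ (N0 ×ˢ W)).image fun t =>
    ((fun j => @ite _ (j ∈ A) (Classical.dec _) t.2.1 t.1), (t.2.2.map ψ).prod)

open Classical in
theorem noiseTests_card {a : ℕ} (X : Act a) {F : Type} {r : ℕ} (ψ : Fin (r + 1) → X.K)
    (N0 : Finset (Sp a)) (W : Finset (List (Fin (r + 1)))) (A : Set F) :
    (noiseTests X ψ N0 W A).card ≤ N0.card * (N0.card * W.card) := by
  unfold noiseTests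
  refine le_trans Finset.card_image_le ?_
  rw [Finset.card_product, Finset.card_product]

open Classical in
theorem noiseTests_mem {a : ℕ} (X : Act a) {F : Type} {r : ℕ} (ψ : Fin (r + 1) → X.K)
    (N0 : Finset (Sp a)) (W : Finset (List (Fin (r + 1)))) (A : Set F) {x y : Sp a}
    (hx : x ∈ N0) (hy : y ∈ N0) {w : List (Fin (r + 1))} (hw : w ∈ W) :
    ((fun j => @ite _ (j ∈ A) (Classical.dec _) y x), (w.map ψ).prod) ∈
      noiseTests X ψ N0 W A := by
  unfold noiseTests
  rw [Finset.mem_image]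
  exact ⟨(x, y, w), by simp [hx, hy, hw], rfl⟩

open MeasureTheory in
open Classical in
/-- the set of coordinates with large mean influence is small -/
theorem noise_large {ι : Type} [Fintype ι] (J : ι → ℝ) (hJ : ∀ i, 0 ≤ J i) (S t : ℝ) (T0 : ℕ)
    (ht : 0 < t) (hS : ∑ i, J i ≤ S) :
    (((Finset.univ.filter fun i => t ≤ (T0 : ℝ) * J i).card : ℕ) : ℝ) * t ≤ T0 * S := by
  have h1 : (((Finset.univ.filter fun i => t ≤ (T0 : ℝ) * J i).card : ℕ) : ℝ) * t ≤
      ∑ i ∈ Finset.univ.filter (fun i => t ≤ (T0 : ℝ) * J i), (T0 : ℝ) * J i := by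
    rw [← nsmul_eq_mul]
    refine Finset.card_nsmul_le_sum _ _ _ ?_
    intro i hi
    exact (Finset.mem_filter.1 hi).2
  have h2 : ∑ i ∈ Finset.univ.filter (fun i => t ≤ (T0 : ℝ) * J i), (T0 : ℝ) * J i ≤
      ∑ i, (T0 : ℝ) * J i := by
    refine Finset.sum_le_sum_of_subset_of_nonneg (Finset.filter_subset _ _) ?_
    intro i _ _
    exact mul_nonneg (Nat.cast_nonneg _) (hJ i)
  have h3 : ∑ i, (T0 : ℝ) * J i = (T0 : ℝ) * ∑ i, J i := (Finset.mul_sum _ _ _).symm
  rw [h3] at h2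
  exact h1.trans (h2.trans (mul_le_mul_of_nonneg_left hS (Nat.cast_nonneg _)))

/-- PT-Noise. The noise theorem. -/
theorem noise {a : ℕ} (X : Act a) (V : Type) [Finite V] (η : ℝ) (hη : 0 < η)
    (N0 : Finset (Sp a)) : ∃ B : ℕ, ∀ (F : Type) [Finite F] (n : ℕ) (q : Sp a → Fin n),
      Measurable q → ∀ h : (F → Fin n) → V, ∃ T : Finset F, T.card ≤ B ∧
        ∀ i, i ∉ T → ∀ A : Set F, ∃ ρ : F → X.K, ∀ x ∈ N0, ∀ y ∈ N0, ∃ v : V, ∀ p : Sp a,
          ∃ u : F → Sp a, dist (u i) p < η ∧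
            (∀ j, j ≠ i → dist (u j) (bs X ρ A x y j) < η) ∧ h (fun j => q (u j)) = v := by
  classical
  haveI := Fintype.ofFinite V
  obtain ⟨r, L, ψ, h0, h1, h2⟩ := words X η hη
  obtain ⟨e⟩ := noise_sph a
  set W : Finset (List (Fin (r + 1))) := (List.finite_length_le (Fin (r + 1)) L).toFinset with hW
  set T0 : ℕ := N0.card * (N0.card * W.card) with hT0
  refine ⟨T0 * ((r + 2) * (r + 1)) * ((L + 1) * Fintype.card V) ^ 2, ?_⟩
  intro F _ n q hq h
  haveI := Fintype.ofFinite F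
  have hV : 0 < Fintype.card V := Fintype.card_pos_iff.2 ⟨h fun _ => q e⟩
  have hc : (0 : ℝ) < ((L : ℝ) + 1) * Fintype.card V := by
    have : (0 : ℝ) < Fintype.card V := by exact_mod_cast hV
    positivity
  set t : ℝ := 1 / (((L : ℝ) + 1) * Fintype.card V) ^ 2 with ht
  have ht0 : 0 < t := by rw [ht]; positivity
  set J : F → ℝ := fun i => ∫ ρ : F → X.K, Infl X ψ (fun z => h fun j => q (z j))
      (fun j => ρ j • e) i ∂(MeasureTheory.Measure.pi fun _ => X.μ) with hJ
  have hJ0 : ∀ i, 0 ≤ J i := by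
    intro i
    rw [hJ]
    exact MeasureTheory.integral_nonneg fun ρ => Infl_nonneg X ψ _ _ i
  have hJs : ∑ i, J i ≤ ((r : ℝ) + 2) * (r + 1) := infl_int_sum X ψ h0 q hq h e
  refine ⟨Finset.univ.filter fun i => t ≤ (T0 : ℝ) * J i, ?_, ?_⟩
  · have h3 := noise_large J hJ0 _ t T0 ht0 hJs
    have h4 : ((Finset.univ.filter fun i => t ≤ (T0 : ℝ) * J i).card : ℝ) ≤
        (T0 : ℝ) * (((r : ℝ) + 2) * (r + 1)) * (((L : ℝ) + 1) * Fintype.card V) ^ 2 := by
      rw [ht, mul_one_div, div_le_iff₀ (by positivity)] at h3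
      exact h3
    exact_mod_cast h4
  · intro i hi A
    have hi' : (T0 : ℝ) * J i < t := by
      rw [Finset.mem_filter, not_and, not_le] at hi
      exact hi (Finset.mem_univ _)
    have hcard : ((noiseTests X ψ N0 W A).card : ℝ) * J i < t := by
      refine lt_of_le_of_lt (mul_le_mul_of_nonneg_right ?_ (hJ0 i)) hi'
      exact_mod_cast noiseTests_card X ψ N0 W A
    obtain ⟨ρ, hρ⟩ := exists_rho X ψ h0 q hq h e i (noiseTests X ψ N0 W A) t ht0 hcard
    refine ⟨ρ, fun x hx y hy => ?_⟩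
    have hI : ∀ w : List (Fin (r + 1)), w.length ≤ L →
        Infl X ψ (fun z => h fun j => q (z j)) (Function.update (bs X ρ A x y) i
          ((w.map ψ).prod • ρ i • e)) i < 1 / (((L : ℝ) + 1) * Fintype.card V) ^ 2 := by
      intro w hw
      have hwW : w ∈ W := by
        rw [hW, Set.Finite.mem_toFinset]
        exact hw
      have h5 := hρ _ (noiseTests_mem X ψ N0 W A hx hy hwW)
      have h6 : (fun j => ρ j • (@ite (Sp a) (j ∈ A) (Classical.dec _) y x)) = bs X ρ A x y := rfl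
      simp only [] at h5
      rw [h6] at h5
      exact h5
    exact popular X ψ (fun z => h fun j => q (z j)) η h1 L (ρ i • e) (h2 (ρ i • e))
      (bs X ρ A x y) i hI

end Pool.Agent.Helper25.PT
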