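import Pool.Agent.Helper25.PT.Move
import Pool.Agent.Helper25.PT.Noise
import Pool.Agent.Helper25.PT.Net

/-! Module PT-Bdd -/

set_option autoImplicit false
set_option linter.all false

namespace Pool.Agent.Helper25.PT

open Pool.Agent.Helper25.PH (IsHom HomTo)

theorem bdd_nrm {m : ℕ} (x y : Sp m) : ‖(x : Eu m) + (y : Eu m)‖ = dist x (-y) := by
  rw [Subtype.dist_eq, dist_eq_norm]
  congr 1
  simp

theorem bdd_bor {m : ℕ} (δ : ℝ) (x y : Sp m) : Bor m δ x y ↔ dist x (-y) < δ := by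
  unfold Bor
  rw [bdd_nrm]

theorem bdd_neg {m : ℕ} (x y : Sp m) : dist (-x) (-y) = dist x y := by
  rw [Subtype.dist_eq, Subtype.dist_eq]
  simp [dist_neg_neg]

theorem bdd_swap {m : ℕ} (x y : Sp m) : dist x (-y) = dist y (-x) := by
  rw [← bdd_nrm, ← bdd_nrm]
  exact congrArg norm (add_comm (x : Eu m) (y : Eu m))

theorem bdd_nu {a : ℕ} {ε : ℝ} {p q : Sp a × Sp a} (h : Nu a ε p q) : Nu a ε q p := by
  refine ⟨?_, ?_⟩
  · have := h.1
    rw [bdd_bor] at this ⊢
    rwa [bdd_swap]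
  · have := h.2
    rw [bdd_bor] at this ⊢
    rwa [bdd_swap]

/-- off `i`, the base points of `A` and `A'` coincide -/
theorem bdd_bs {a : ℕ} (X : Act a) {F : Type} (ρ : F → X.K) (A A' : Set F) (i : F)
    (hA : ∀ j, j ≠ i → (j ∈ A' ↔ j ∈ A)) (x y : Sp a) (j : F) (hj : j ≠ i) :
    bs X ρ A' x y j = bs X ρ A x y j := by
  unfold bs
  by_cases h : j ∈ A
  · have h' : j ∈ A' := (hA j hj).2 h
    simp [h, h']
  · have h' : j ∉ A' := fun hh => h ((hA j hj).1 hh)
    simp [h, h']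

/-- the distance of base points -/
theorem bdd_dist {a : ℕ} (X : Act a) {F : Type} (ρ : F → X.K) (A : Set F) {x y x' y' : Sp a}
    {δ : ℝ} (h1 : dist x (-x') < δ) (h2 : dist y (-y') < δ) (j : F) :
    dist (bs X ρ A x y j) (-(bs X ρ A x' y' j)) < δ := by
  unfold bs
  by_cases h : j ∈ A
  · simp only [h, if_true]
    rw [← X.smul_neg, X.dist_smul]
    exact h2
  · simp only [h, if_false]
    rw [← X.smul_neg, X.dist_smul]
    exact h1

/-- PT-Bdd. The number of relevant coordinates is bounded. -/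
theorem bdd {a : ℕ} (X : Act a) (V : Type) [Finite V] (ε : ℝ) (hε : 0 < ε) : ∃ B : ℕ,
    ∀ (E : V → V → Prop), (∀ u v, E u v → E v u) → ∀ (F : Type) [Finite F] (n : ℕ)
      (q : Sp a → Fin n), Measurable q → ∀ h : (F → Fin n) → V,
      IsHom (PR (Bor a (2 * ε)) F) E (fun z => h fun j => q (z j)) →
      ∀ S : Finset F, (∀ i ∈ S, Rlv E ε (fun z => h fun j => q (z j)) i) → S.card ≤ B := by
  classical
  obtain ⟨m, c, q0, -, hq0⟩ := exists_net a (ε / 4) (by linarith)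
  obtain ⟨B, hB⟩ := noise X V (ε / 4) (by linarith) (Finset.univ.image c)
  refine ⟨B, fun E hE F _ n q hq h hf S hS => ?_⟩
  obtain ⟨T, hT, hT2⟩ := hB F n q hq h
  refine le_trans (Finset.card_le_card fun i hi => ?_) hT
  by_contra hiT
  obtain ⟨A, hA⟩ := hS i hi
  apply hA
  by_cases hiA : i ∈ A
  · rw [Set.insert_eq_of_mem hiA]
    exact Relation.ReflTransGen.refl
  obtain ⟨ρ, hρ⟩ := hT2 i hiT A
  have hc : ∀ x : Sp a, c (q0 x) ∈ Finset.univ.image c := fun x =>
    Finset.mem_image_of_mem _ (Finset.mem_univ _)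
  choose w hw using fun p : Sp a × Sp a => hρ (c (q0 p.1)) (hc p.1) (c (q0 p.2)) (hc p.2)
  set f : (F → Sp a) → V := fun z => h fun j => q (z j) with hfdef
  -- distances of the net points
  have hnet : ∀ x x' : Sp a, dist x (-x') < ε →
      dist (c (q0 x)) (-(c (q0 x'))) < ε + ε / 4 + ε / 4 := by
    intro x x' hx
    have h1 := dist_triangle4 (c (q0 x)) x (-x') (-(c (q0 x')))
    have h2 := hq0 x
    have h3 := hq0 x'
    rw [dist_comm] at h2
    rw [bdd_neg] at h1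
    linarith
  have hnet' : ∀ x x' : Sp a, dist x (-x') < ε →
      dist x (-(c (q0 x'))) < ε + ε / 4 := by
    intro x x' hx
    have h1 := dist_triangle x (-x') (-(c (q0 x')))
    have h3 := hq0 x'
    rw [bdd_neg] at h1
    linarith
  -- the three kinds of adjacencies
  have hww : St (Nu a ε) E w w := by
    intro p r hpr
    have h1 := hpr.1
    have h2 := hpr.2
    rw [bdd_bor] at h1 h2
    obtain ⟨u, hu1, hu2, hu3⟩ := hw p p.1
    obtain ⟨u', hu1', hu2', hu3'⟩ := hw r (-p.1)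
    rw [← hu3, ← hu3']
    refine hf u u' fun j => ?_
    rw [bdd_bor]
    by_cases hj : j = i
    · subst hj
      have h3 := dist_triangle (u j) p.1 (-(u' j))
      have h4 : dist p.1 (-(u' j)) = dist (u' j) (-p.1) := bdd_swap _ _
      linarith
    · have h3 := dist_triangle4 (u j) (bs X ρ A (c (q0 p.1)) (c (q0 p.2)) j)
        (-(bs X ρ A (c (q0 r.1)) (c (q0 r.2)) j)) (-(u' j))
      have h4 := hu2 j hj
      have h5 := hu2' j hj
      have h6 := bdd_dist X ρ A (hnet _ _ h1) (hnet _ _ h2) j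
      rw [bdd_neg] at h3
      rw [dist_comm] at h5
      linarith
  have hgg : ∀ A' : Set F, St (Nu a ε) E (fun p => f (bs X ρ A' p.1 p.2))
      (fun p => f (bs X ρ A' p.1 p.2)) := by
    intro A' p r hpr
    have h1 := hpr.1
    have h2 := hpr.2
    rw [bdd_bor] at h1 h2
    refine hf _ _ fun j => ?_
    rw [bdd_bor]
    have := bdd_dist X ρ A' h1 h2 j
    linarith
  have hgw : ∀ A' : Set F, (∀ j, j ≠ i → (j ∈ A' ↔ j ∈ A)) →
      St (Nu a ε) E (fun p => f (bs X ρ A' p.1 p.2)) w := by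
    intro A' hA' p r hpr
    have h1 := hpr.1
    have h2 := hpr.2
    rw [bdd_bor] at h1 h2
    obtain ⟨u, hu1, hu2, hu3⟩ := hw r (-(bs X ρ A' p.1 p.2 i))
    rw [← hu3]
    refine hf (bs X ρ A' p.1 p.2) u fun j => ?_
    rw [bdd_bor]
    by_cases hj : j = i
    · subst hj
      rw [bdd_swap]
      linarith
    · have h3 := dist_triangle (bs X ρ A' p.1 p.2 j)
        (-(bs X ρ A (c (q0 r.1)) (c (q0 r.2)) j)) (-(u j))
      have h5 := hu2 j hj
      rw [bdd_bs X ρ A A' i hA' _ _ j hj] at h3 ⊢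
      have h6 := bdd_dist X ρ A (hnet' _ _ h1) (hnet' _ _ h2) j
      rw [bdd_neg] at h3
      rw [dist_comm] at h5
      linarith
  have hwg : ∀ A' : Set F, (∀ j, j ≠ i → (j ∈ A' ↔ j ∈ A)) →
      St (Nu a ε) E w (fun p => f (bs X ρ A' p.1 p.2)) := fun A' hA' p r hpr =>
    hE _ _ (hgw A' hA' r p (bdd_nu hpr))
  have hAA : ∀ j, j ≠ i → (j ∈ A ↔ j ∈ A) := fun j _ => Iff.rfl
  have hAI : ∀ j, j ≠ i → (j ∈ insert i A ↔ j ∈ A) := fun j hj => by
    rw [Set.mem_insert_iff]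
    exact ⟨fun hh => hh.resolve_left hj, Or.inr⟩
  have hsymm : ∀ g g' : Sp a × Sp a → V, Ho (Nu a ε) E g g' → Ho (Nu a ε) E g' g := by
    intro g g' hg
    induction hg with
    | refl => exact Relation.ReflTransGen.refl
    | tail _ hxy ih => exact Relation.ReflTransGen.head ⟨hxy.2.1, hxy.1, hxy.2.2.2, hxy.2.2.1⟩ ih
  have s1 : Ho (Nu a ε) E (fun p => f (bs X ρ A p.1 p.2)) w :=
    Relation.ReflTransGen.single ⟨hgg A, hww, hgw A hAA, hwg A hAA⟩
  have s2 : Ho (Nu a ε) E w (fun p => f (bs X ρ (insert i A) p.1 p.2)) :=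
    Relation.ReflTransGen.single ⟨hww, hgg _, hwg _ hAI, hgw _ hAI⟩
  exact ((ho_move X hε hf ρ A).trans (s1.trans s2)).trans
    (hsymm _ _ (ho_move X hε hf ρ (insert i A)))

end Pool.Agent.Helper25.PT
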