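import Pool.Agent.Helper25.PT.Defs

/-! Module PT-Compat -/

set_option autoImplicit false
set_option linter.all false

namespace Pool.Agent.Helper25.PT

open Pool.Agent.Helper25.PH (IsHom HomTo)

theorem compat_borSymm {a : ℕ} {ε : ℝ} {x y : Sp a} (h : Bor a ε x y) : Bor a ε y x := by
  have h1 : (y : Eu a) + (x : Eu a) = (x : Eu a) + (y : Eu a) := add_comm _ _
  have h2 : ‖(x : Eu a) + (y : Eu a)‖ < ε := h
  show ‖(y : Eu a) + (x : Eu a)‖ < ε
  exact lt_of_eq_of_lt (congrArg norm h1) h2

theorem compat_binPR {a : ℕ} {F : Type} {ε : ℝ} (A : Set F) {p q : Sp a × Sp a}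
    (h : Nu a ε p q) : PR (Bor a ε) F (fun j => @ite _ (j ∈ A) (Classical.propDecidable _) p.2 p.1)
      (fun j => @ite _ (j ∈ A) (Classical.propDecidable _) q.2 q.1) := by
  intro j
  by_cases hj : j ∈ A
  · simp only [hj, if_true]
    exact h.2
  · simp only [hj, if_false]
    exact h.1

theorem compat_stepSymm {P V : Type} {ν : P → P → Prop} {E : V → V → Prop} {g g' : P → V}
    (h : Step ν E g g') : Step ν E g' g := ⟨h.2.1, h.1, h.2.2.2, h.2.2.1⟩

theorem compat_hoSymm {P V : Type} {ν : P → P → Prop} {E : V → V → Prop} {g g' : P → V}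
    (h : Ho ν E g g') : Ho ν E g' g := by
  induction h with
  | refl => exact Relation.ReflTransGen.refl
  | tail _ hs ih => exact Relation.ReflTransGen.head (compat_stepSymm hs) ih

/-- PT-Compat. Relevant coordinates are compatible with minors and adjacency. -/
theorem rlv_compat {a : ℕ} {V F F' : Type} [Finite F] [Finite F'] {E : V → V → Prop}
    (hE : ∀ u v, E u v → E v u) {ε : ℝ} {f : (F → Sp a) → V} {f' : (F' → Sp a) → V}
    (π : F' → F) (hf : IsHom (PR (Bor a ε) F) E f) (hf' : IsHom (PR (Bor a ε) F') E f')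
    (hc : ∀ (y : F → Sp a) (z : F' → Sp a), PR (Bor a ε) F' (fun s => y (π s)) z →
      E (f y) (f' z)) (t : F) (ht : Rlv E ε f t) : ∃ s, π s = t ∧ Rlv E ε f' s := by
  classical
  by_contra hcon
  push Not at hcon
  obtain ⟨A, hA⟩ := ht
  apply hA
  -- one step
  have hstep : ∀ A : Set F, Step (Nu a ε) E (bin f A) (bin f' (π ⁻¹' A)) := by
    intro A
    refine ⟨fun p q h => hf _ _ (compat_binPR A h), fun p q h => hf' _ _ (compat_binPR _ h), fun p q h => ?_,
      fun p q h => ?_⟩
    · exact hc _ _ (fun s => compat_binPR A h (π s))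
    · refine hE _ _ (hc _ _ (fun s => compat_borSymm ?_))
      exact compat_binPR A h (π s)
  have h1 : Ho (Nu a ε) E (bin f A) (bin f' (π ⁻¹' A)) := Relation.ReflTransGen.single (hstep A)
  have h3 : Ho (Nu a ε) E (bin f' (π ⁻¹' (insert t A))) (bin f (insert t A)) :=
    Relation.ReflTransGen.single (compat_stepSymm (hstep _))
  have hnr : ∀ s, π s = t → ∀ B : Set F', Ho (Nu a ε) E (bin f' B) (bin f' (insert s B)) := by
    intro s hs B
    have := hcon s hs
    unfold Rlv at this
    push Not at this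
    exact this B
  have h2 : ∀ S : Set F', S.Finite → (∀ s ∈ S, π s = t) →
      Ho (Nu a ε) E (bin f' (π ⁻¹' A)) (bin f' (S ∪ π ⁻¹' A)) := by
    intro S hS
    refine Set.Finite.induction_on (motive := fun S _ => (∀ s ∈ S, π s = t) →
      Ho (Nu a ε) E (bin f' (π ⁻¹' A)) (bin f' (S ∪ π ⁻¹' A))) S hS ?_ ?_
    · intro _
      rw [Set.empty_union]
      exact Relation.ReflTransGen.refl
    · intro s S _ _ ih hs
      rw [Set.insert_union]
      exact (ih (fun x hx => hs x (Set.mem_insert_of_mem _ hx))).trans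
        (hnr s (hs s (Set.mem_insert _ _)) _)
  have h4 := h2 (π ⁻¹' {t}) (Set.toFinite _) (fun s hs => hs)
  have h5 : π ⁻¹' {t} ∪ π ⁻¹' A = π ⁻¹' (insert t A) := by
    rw [← Set.preimage_union, Set.singleton_union]
  rw [h5] at h4
  exact (h1.trans h4).trans h3

end Pool.Agent.Helper25.PT
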