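import Pool.Agent.Helper25.PH.Statement
import Pool.Agent.Helper25.PH.Defs

/-!
# Project PT: definitions
-/

set_option autoImplicit false
set_option linter.all false

namespace Pool.Agent.Helper25.PT

open Pool.Agent.Helper25.PH (IsHom HomTo Valid)

/-- Euclidean space of dimension `m + 1` -/
abbrev Eu (m : ℕ) := EuclideanSpace ℝ (Fin (m + 1))

/-- the sphere `S^m` -/
abbrev Sp (m : ℕ) := Metric.sphere (0 : Eu m) 1

/-- the Borsuk graph: two points of `S^m` are adjacent if they are almost antipodal -/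
def Bor (m : ℕ) (δ : ℝ) (x y : Sp m) : Prop := ‖(x : Eu m) + (y : Eu m)‖ < δ

/-- the categorical power of a relation -/
def PR {Y : Type} (θ : Y → Y → Prop) (F : Type) (y z : F → Y) : Prop := ∀ j, θ (y j) (z j)

/-- the gap graph of the constraint satisfaction instance `R`, over the graph `θ` -/
def Gap {J Λ Y : Type} (R : J → Λ → J → Λ → Prop) (θ : Y → Y → Prop) (K : ℕ)
    (p q : (Fin K → J) × ((Fin K → Λ) → Y)) : Prop :=
  (∀ i, ∃ j, p.1 i = q.1 j) ∧
    ∀ s s' : Fin K → Λ, Valid R p.1 s' → Valid R q.1 s → (∀ i j, p.1 i = q.1 j → s' i = s j) →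
      θ (p.2 s') (q.2 s)

/-- adjacency of maps from the graph `ν` to the graph `E` -/
def St {P V : Type} (ν : P → P → Prop) (E : V → V → Prop) (g g' : P → V) : Prop :=
  ∀ p q, ν p q → E (g p) (g' q)

/-- one step of a homotopy -/
def Step {P V : Type} (ν : P → P → Prop) (E : V → V → Prop) (g g' : P → V) : Prop :=
  St ν E g g ∧ St ν E g' g' ∧ St ν E g g' ∧ St ν E g' g

/-- homotopy -/
def Ho {P V : Type} (ν : P → P → Prop) (E : V → V → Prop) : (P → V) → (P → V) → Prop :=
  Relation.ReflTransGen (Step ν E)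

/-- pairs of almost antipodal points -/
def Nu (a : ℕ) (ε : ℝ) (p q : Sp a × Sp a) : Prop := Bor a ε p.1 q.1 ∧ Bor a ε p.2 q.2

open Classical in
/-- the binary map of the set `A` -/
noncomputable def bin {a : ℕ} {F V : Type} (f : (F → Sp a) → V) (A : Set F)
    (p : Sp a × Sp a) : V :=
  f fun j => if j ∈ A then p.2 else p.1

/-- relevant coordinates -/
def Rlv {a : ℕ} {F V : Type} (E : V → V → Prop) (ε : ℝ) (f : (F → Sp a) → V) (i : F) : Prop :=
  ∃ A : Set F, ¬ Ho (Nu a ε) E (bin f A) (bin f (insert i A))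

open MeasureTheory in
/-- a group of isometries of the sphere with an invariant probability measure, and the properties
that are needed -/
structure Act (a : ℕ) where
  K : Type
  [grp : Group K]
  [meas : MeasurableSpace K]
  [mmul : MeasurableMul₂ K]
  [act : MulAction K (Sp a)]
  μ : Measure K
  [prob : IsProbabilityMeasure μ]
  [left : μ.IsMulLeftInvariant]
  [right : μ.IsMulRightInvariant]
  dist_smul : ∀ (k : K) (x y : Sp a), dist (k • x) (k • y) = dist x y
  smul_neg : ∀ (k : K) (x : Sp a), k • (-x) = -(k • x)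
  meas_smul : ∀ x : Sp a, Measurable fun k : K => k • x
  trans : ∀ x y : Sp a, ∃ k : K, k • x = y
  /-- small elements generate -/
  gen : ∀ η : ℝ, 0 < η → ∀ k : K, ∃ l : List K, (∀ u ∈ l, ∀ x : Sp a, dist (u • x) x < η) ∧
    l.prod = k
  /-- totally bounded -/
  net : ∀ η : ℝ, 0 < η → ∃ T : Set K, T.Finite ∧ ∀ k : K, ∃ t ∈ T, ∀ x : Sp a,
    dist (t • x) (k • x) < η

attribute [instance] Act.grp Act.meas Act.mmul Act.act Act.prob Act.left Act.right

/-- base point of the noise: `j ∈ A` gets `ρ j • y` and `j ∉ A` gets `ρ j • x` -/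
noncomputable def bs {a : ℕ} (X : Act a) {F : Type} (ρ : F → X.K) (A : Set F) (x y : Sp a)
    (j : F) : Sp a :=
  letI := Classical.dec (j ∈ A)
  ρ j • (if j ∈ A then y else x)

end Pool.Agent.Helper25.PT
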