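import Pool.Agent.Helper25.PH.Cnf
import Pool.Agent.Helper25.PT.Defs

/-! Module PT-GapWord: the word of the gap graph -/

set_option autoImplicit false
set_option linter.all false

namespace Pool.Agent.Helper25.PT

open Pool.Agent.Helper96
open Pool.Agent.Helper25.PH (IsHom HomTo Valid code Rb items Lab poly_Rb poly_items)

namespace GapW

/-- all tuples of items -/
def tup : ℕ → List (List (ℕ × Bool)) → List (List (ℕ × ℕ))
  | 0, _ => [[]]
  | k + 1, cls => (tup k cls).flatMap fun c => (items cls).map fun x => x :: c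

theorem mem_tup (cls : List (List (ℕ × Bool))) : ∀ (k : ℕ) (c : List (ℕ × ℕ)),
    c ∈ tup k cls ↔ c.length = k ∧ ∀ x ∈ c, x ∈ items cls := by
  intro k
  induction k with
  | zero =>
    intro c
    simp only [tup, List.mem_singleton]
    constructor
    · rintro rfl
      simp
    · rintro ⟨h, _⟩
      exact List.length_eq_zero_iff.1 h
  | succ k ih =>
    intro c
    simp only [tup, List.mem_flatMap, List.mem_map]
    constructor
    · rintro ⟨c', hc', x, hx, rfl⟩
      obtain ⟨h1, h2⟩ := (ih c').1 hc'
      refine ⟨by simp [h1], ?_⟩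
      intro y hy
      rcases List.mem_cons.1 hy with rfl | hy
      · exact hx
      · exact h2 y hy
    · rintro ⟨h1, h2⟩
      cases c with
      | nil => simp at h1
      | cons x c' =>
        refine ⟨c', (ih c').2 ⟨by simpa using h1, fun y hy => h2 y (List.mem_cons_of_mem _ hy)⟩,
          x, h2 x List.mem_cons_self, rfl⟩

theorem poly_tup (k : ℕ) : Poly (tup k) := by
  induction k with
  | zero =>
    exact Helper96.Poly.const [[]]
  | succ k ih =>
    change Poly (fun cls => (tup k cls).flatMap fun c => (items cls).map fun x => x :: c)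
    refine Helper96.Poly.flatMap (h := fun (cls : List (List (ℕ × Bool))) (c : List (ℕ × ℕ)) =>
      (items cls).map fun x => x :: c) ih ?_
    refine Helper96.Poly.map (h := fun (q : List (List (ℕ × Bool)) × List (ℕ × ℕ)) (x : ℕ × ℕ) =>
      x :: q.2) (f := fun q : List (List (ℕ × Bool)) × List (ℕ × ℕ) => items q.1)
      (poly_items.comp (by fun_prop)) (by fun_prop)

/-- conjunctions over constant lists -/
theorem poly_allC {α σ : Type} [Enc α] (L : List σ) (g : σ → α → Bool)
    (hg : ∀ s, Poly (g s)) : Poly (fun a => L.all fun s => g s a) := by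
  induction L with
  | nil => exact Helper96.Poly.const true
  | cons s L ih =>
    simp only [List.all_cons]
    exact Helper96.Poly.and (hg s) ih

/-- disjunctions over constant lists -/
theorem poly_anyC {α σ : Type} [Enc α] (L : List σ) (g : σ → α → Bool)
    (hg : ∀ s, Poly (g s)) : Poly (fun a => L.any fun s => g s a) := by
  induction L with
  | nil => exact Helper96.Poly.const false
  | cons s L ih =>
    simp only [List.any_cons]
    exact Helper96.Poly.or (hg s) ih

section

variable {Y : Type} [Fintype Y] (θ : Y → Y → Prop) (K : ℕ)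

/-- all functions `y` -/
noncomputable def YL (_ : Y → Y → Prop) (K : ℕ) : List ((Fin K → Lab) → Y) := Finset.univ.toList

/-- all labellings -/
noncomputable def SL : List (Fin K → Lab) := Finset.univ.toList

theorem mem_YL (y : (Fin K → Lab) → Y) : y ∈ YL θ K := by
  simp [YL]

theorem mem_SL (s : Fin K → Lab) : s ∈ SL K := by
  simp [SL]

open Classical in
/-- the table of the relation -/
noncomputable def table (s' s : Fin K → Lab) : List (List Bool) :=
  (YL θ K).map fun Y => (YL θ K).map fun Z => decide (θ (Y s') (Z s))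

/-- entry of a tuple -/
def ent (c : List (ℕ × ℕ)) (i : ℕ) : ℕ × ℕ := c.getD i (0, 0)

def covB (c c' : List (ℕ × ℕ)) : Bool :=
  (List.finRange K).all fun i => (List.finRange K).any fun j => decide (ent c i = ent c' j)

def validB (cls : List (List (ℕ × Bool))) (c : List (ℕ × ℕ)) (s : Fin K → Lab) : Bool :=
  (List.finRange K).all fun i => (List.finRange K).all fun j =>
    (!decide (ent c i = ent c j) || decide (s i = s j)) &&
      Rb cls (ent c i) (s i) (ent c j) (s j)

def compB (c c' : List (ℕ × ℕ)) (s' s : Fin K → Lab) : Bool :=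
  (List.finRange K).all fun i => (List.finRange K).all fun j =>
    !decide (ent c i = ent c' j) || decide (s' i = s j)

/-- adjacency -/
noncomputable def adjB (cls : List (List (ℕ × Bool))) (v w : List (ℕ × ℕ) × ℕ) : Bool :=
  covB K v.1 w.1 && (SL K).all fun s' => (SL K).all fun s =>
    !(validB K cls v.1 s' && validB K cls w.1 s && compB K v.1 w.1 s' s) ||
      ((table θ K s' s).getD v.2 []).getD w.2 false

/-- the vertices -/
noncomputable def verts (cls : List (List (ℕ × Bool))) : List (List (ℕ × ℕ) × ℕ) :=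
  (tup K cls).flatMap fun c => (List.range (YL θ K).length).map fun y => (c, y)

noncomputable def word (cls : List (List (ℕ × Bool))) : List Bool :=
  (verts θ K cls).flatMap fun v => (verts θ K cls).map fun w => adjB θ K cls v w

def A (cls : List (List (ℕ × Bool))) (a b : Fin (verts θ K cls).length) : Prop :=
  adjB θ K cls ((verts θ K cls).get a) ((verts θ K cls).get b) = true

theorem word_eq (cls : List (List (ℕ × Bool))) :
    word θ K cls = code (verts θ K cls).length (A θ K cls) := by
  unfold word code
  have h1 : ∀ (l : List (List (ℕ × ℕ) × ℕ)),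
      l = (List.finRange l.length).map l.get := fun l => by
    rw [← List.ofFn_eq_map, List.ofFn_get]
  have h2 : (verts θ K cls).flatMap (fun v => (verts θ K cls).map fun w => adjB θ K cls v w) =
      ((List.finRange (verts θ K cls).length).map (verts θ K cls).get).flatMap
        (fun v => ((List.finRange (verts θ K cls).length).map (verts θ K cls).get).map
          fun w => adjB θ K cls v w) := by
    rw [← h1 (verts θ K cls)]
  rw [h2, List.flatMap_map]
  congr 1
  funext i
  rw [List.map_map]
  apply List.map_congr_left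
  intro j _
  simp only [Function.comp_apply, A]
  exact (Bool.decide_eq_true).symm

theorem poly_ent {α : Type} [Enc α] {c : α → List (ℕ × ℕ)} (hc : Poly c) (i : ℕ) :
    Poly (fun a => ent (c a) i) :=
  Helper96.Poly.listGetD (Helper96.Poly.const i) hc (Helper96.Poly.const (0, 0))

theorem poly_covB {α : Type} [Enc α] {c c' : α → List (ℕ × ℕ)} (hc : Poly c) (hc' : Poly c') :
    Poly (fun a => covB K (c a) (c' a)) := by
  unfold covB
  refine poly_allC _ (fun (i : Fin K) a => (List.finRange K).any fun j =>
    decide (ent (c a) i = ent (c' a) j)) fun i => ?_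
  refine poly_anyC _ (fun (j : Fin K) a => decide (ent (c a) i = ent (c' a) j)) fun j => ?_
  exact Helper96.Poly.decide_eq (poly_ent hc _) (poly_ent hc' _)

theorem poly_compB {α : Type} [Enc α] {c c' : α → List (ℕ × ℕ)} (hc : Poly c) (hc' : Poly c')
    (s' s : Fin K → Lab) : Poly (fun a => compB K (c a) (c' a) s' s) := by
  unfold compB
  refine poly_allC _ (fun (i : Fin K) a => (List.finRange K).all fun j =>
    !decide (ent (c a) i = ent (c' a) j) || decide (s' i = s j)) fun i => ?_
  refine poly_allC _ (fun (j : Fin K) a => !decide (ent (c a) i = ent (c' a) j) || decide (s' i = s j))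
    fun j => ?_
  exact Helper96.Poly.or (Helper96.Poly.not
    (Helper96.Poly.decide_eq (poly_ent hc _) (poly_ent hc' _))) (Helper96.Poly.const _)

theorem poly_validB {α : Type} [Enc α] {cls : α → List (List (ℕ × Bool))}
    {c : α → List (ℕ × ℕ)} (hcls : Poly cls) (hc : Poly c)
    (s : Fin K → Lab) : Poly (fun a => validB K (cls a) (c a) s) := by
  unfold validB
  refine poly_allC _ (fun (i : Fin K) a => (List.finRange K).all fun j =>
    (!decide (ent (c a) i = ent (c a) j) || decide (s i = s j)) &&
      Rb (cls a) (ent (c a) i) (s i) (ent (c a) j) (s j)) fun i => ?_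
  refine poly_allC _ (fun (j : Fin K) a => (!decide (ent (c a) i = ent (c a) j) || decide (s i = s j)) &&
      Rb (cls a) (ent (c a) i) (s i) (ent (c a) j) (s j)) fun j => ?_
  refine Helper96.Poly.and (Helper96.Poly.or (Helper96.Poly.not
    (Helper96.Poly.decide_eq (poly_ent hc _) (poly_ent hc _))) (Helper96.Poly.const _)) ?_
  exact (poly_Rb (s i) (s j)).comp (f := fun a => (cls a, (ent (c a) i, ent (c a) j)))
    (Helper96.Poly.prodMk hcls (Helper96.Poly.prodMk (poly_ent hc _) (poly_ent hc _)))

theorem poly_adjB {α : Type} [Enc α] {cls : α → List (List (ℕ × Bool))}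
    {v w : α → List (ℕ × ℕ) × ℕ} (hcls : Poly cls) (hv : Poly v) (hw : Poly w) :
    Poly (fun a => adjB θ K (cls a) (v a) (w a)) := by
  unfold adjB
  refine Helper96.Poly.and (poly_covB K (Helper96.Poly.fst hv) (Helper96.Poly.fst hw)) ?_
  refine poly_allC _ (fun s' a => (SL K).all fun s =>
    !(validB K (cls a) (v a).1 s' && validB K (cls a) (w a).1 s &&
      compB K (v a).1 (w a).1 s' s) ||
      ((table θ K s' s).getD (v a).2 []).getD (w a).2 false) fun s' => ?_
  refine poly_allC _ (fun s a =>
    !(validB K (cls a) (v a).1 s' && validB K (cls a) (w a).1 s &&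
      compB K (v a).1 (w a).1 s' s) ||
      ((table θ K s' s).getD (v a).2 []).getD (w a).2 false) fun s => ?_
  refine Helper96.Poly.or (Helper96.Poly.not (Helper96.Poly.and (Helper96.Poly.and
    (poly_validB K hcls (Helper96.Poly.fst hv) s') (poly_validB K hcls (Helper96.Poly.fst hw) s))
    (poly_compB K (Helper96.Poly.fst hv) (Helper96.Poly.fst hw) s' s))) ?_
  exact Helper96.Poly.listGetD (Helper96.Poly.snd hw) (Helper96.Poly.listGetD
    (Helper96.Poly.snd hv) (Helper96.Poly.const (table θ K s' s)) (Helper96.Poly.const []))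
    (Helper96.Poly.const false)

theorem poly_verts : Poly (verts θ K) := by
  unfold verts
  refine Helper96.Poly.flatMap (h := fun (cls : List (List (ℕ × Bool))) (c : List (ℕ × ℕ)) =>
    (List.range (YL θ K).length).map fun y => (c, y)) (poly_tup K) ?_
  exact Helper96.Poly.map (h := fun (q : List (List (ℕ × Bool)) × List (ℕ × ℕ)) (y : ℕ) =>
    (q.2, y)) (f := fun q : List (List (ℕ × Bool)) × List (ℕ × ℕ) =>
      List.range (YL θ K).length) (Helper96.Poly.const _) (by fun_prop)

theorem poly_word : Poly (word θ K) := by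
  unfold word
  refine Helper96.Poly.flatMap (h := fun (cls : List (List (ℕ × Bool))) v =>
    (verts θ K cls).map fun w => adjB θ K cls v w) (poly_verts θ K) ?_
  refine Helper96.Poly.map (h := fun (q : List (List (ℕ × Bool)) × (List (ℕ × ℕ) × ℕ)) w =>
    adjB θ K q.1 q.2 w) (f := fun q : List (List (ℕ × Bool)) × (List (ℕ × ℕ) × ℕ) =>
      verts θ K q.1) ((poly_verts θ K).comp (by fun_prop)) ?_
  exact poly_adjB θ K (cls := fun p : (List (List (ℕ × Bool)) × (List (ℕ × ℕ) × ℕ)) ×
    (List (ℕ × ℕ) × ℕ) => p.1.1) (v := fun p => p.1.2) (w := fun p => p.2)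
    (by fun_prop) (by fun_prop) (by fun_prop)

/-- a vertex represents a pair -/
def Rep (cls : List (List (ℕ × Bool))) (v : List (ℕ × ℕ) × ℕ)
    (p : (Fin K → {x // x ∈ items cls}) × ((Fin K → Lab) → Y)) : Prop :=
  (∀ i : Fin K, ent v.1 i = (p.1 i).1) ∧ (YL θ K)[v.2]? = some p.2

theorem exists_rep (cls : List (List (ℕ × Bool))) (v : List (ℕ × ℕ) × ℕ)
    (hv : v ∈ verts θ K cls) : ∃ p, Rep θ K cls v p := by
  simp only [verts, List.mem_flatMap, List.mem_map, List.mem_range] at hv
  obtain ⟨c, hc, y, hy, rfl⟩ := hv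
  obtain ⟨h1, h2⟩ := (mem_tup cls K c).1 hc
  have h3 : ∀ i : Fin K, ent c i ∈ items cls := by
    intro i
    have hi : i.1 < c.length := by rw [h1]; exact i.2
    unfold ent
    rw [List.getD_eq_getElem?_getD, List.getElem?_eq_getElem hi]
    exact h2 _ (List.getElem_mem hi)
  exact ⟨(fun i => ⟨ent c i, h3 i⟩, (YL θ K)[y]), fun i => rfl, List.getElem?_eq_getElem hy⟩

theorem rep_surj (cls : List (List (ℕ × Bool)))
    (p : (Fin K → {x // x ∈ items cls}) × ((Fin K → Lab) → Y)) :
    ∃ v ∈ verts θ K cls, Rep θ K cls v p := by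
  obtain ⟨y, hy, hy'⟩ := List.getElem_of_mem (mem_YL θ K p.2)
  refine ⟨(List.ofFn fun i => (p.1 i).1, y), ?_, ?_, ?_⟩
  · simp only [verts, List.mem_flatMap, List.mem_map, List.mem_range]
    refine ⟨List.ofFn fun i => (p.1 i).1, ?_, y, hy, rfl⟩
    rw [mem_tup]
    refine ⟨List.length_ofFn, ?_⟩
    intro x hx
    obtain ⟨i, rfl⟩ := (List.mem_ofFn' _ _).1 hx
    exact (p.1 i).2
  · intro i
    unfold ent
    rw [List.getD_eq_getElem?_getD, List.getElem?_ofFn]
    simp
  · simp only
    rw [List.getElem?_eq_getElem hy, hy']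

theorem covB_iff {cls : List (List (ℕ × Bool))} {v w : List (ℕ × ℕ) × ℕ}
    {p q : (Fin K → {x // x ∈ items cls}) × ((Fin K → Lab) → Y)}
    (hv : Rep θ K cls v p) (hw : Rep θ K cls w q) :
    covB K v.1 w.1 = true ↔ ∀ i, ∃ j, p.1 i = q.1 j := by
  simp only [covB, List.all_eq_true, List.any_eq_true, List.mem_finRange, true_and, true_imp_iff,
    forall_true_left, decide_eq_true_eq, hv.1, hw.1]
  constructor
  · intro h i
    obtain ⟨j, hj⟩ := h i
    exact ⟨j, Subtype.ext hj⟩
  · intro h i
    obtain ⟨j, hj⟩ := h i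
    exact ⟨j, by rw [hj]⟩

theorem compB_iff {cls : List (List (ℕ × Bool))} {v w : List (ℕ × ℕ) × ℕ}
    {p q : (Fin K → {x // x ∈ items cls}) × ((Fin K → Lab) → Y)}
    (hv : Rep θ K cls v p) (hw : Rep θ K cls w q) (s' s : Fin K → Lab) :
    compB K v.1 w.1 s' s = true ↔ ∀ i j, p.1 i = q.1 j → s' i = s j := by
  simp only [compB, List.all_eq_true, List.mem_finRange, forall_true_left, Bool.or_eq_true,
    Bool.not_eq_true', decide_eq_false_iff_not, decide_eq_true_eq, hv.1, hw.1]
  constructor
  · intro h i j hij
    rcases h i j with h1 | h1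
    · exact absurd (by rw [hij]) h1
    · exact h1
  · intro h i j
    by_cases hij : p.1 i = q.1 j
    · exact Or.inr (h i j hij)
    · exact Or.inl fun h' => hij (Subtype.ext h')

theorem validB_iff {cls : List (List (ℕ × Bool))} {v : List (ℕ × ℕ) × ℕ}
    {p : (Fin K → {x // x ∈ items cls}) × ((Fin K → Lab) → Y)}
    (hv : Rep θ K cls v p) (s : Fin K → Lab) :
    validB K cls v.1 s = true ↔
      Valid (fun (x : {x // x ∈ items cls}) a y b => Rb cls x.1 a y.1 b = true) p.1 s := by
  simp only [validB, Valid, List.all_eq_true, List.mem_finRange, forall_true_left,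
    Bool.and_eq_true, Bool.or_eq_true,
    Bool.not_eq_true', decide_eq_false_iff_not, decide_eq_true_eq, hv.1]
  constructor
  · intro h i j
    refine ⟨fun hij => ?_, (h i j).2⟩
    rcases (h i j).1 with h1 | h1
    · exact absurd (by rw [hij]) h1
    · exact h1
  · intro h i j
    refine ⟨?_, (h i j).2⟩
    by_cases hij : p.1 i = p.1 j
    · exact Or.inr ((h i j).1 hij)
    · exact Or.inl fun h' => hij (Subtype.ext h')

theorem table_get {cls : List (List (ℕ × Bool))} {v w : List (ℕ × ℕ) × ℕ}
    {p q : (Fin K → {x // x ∈ items cls}) × ((Fin K → Lab) → Y)}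
    (hv : Rep θ K cls v p) (hw : Rep θ K cls w q) (s' s : Fin K → Lab) :
    ((table θ K s' s).getD v.2 []).getD w.2 false = true ↔ θ (p.2 s') (q.2 s) := by
  simp only [table, List.getD_eq_getElem?_getD, List.getElem?_map, hv.2, hw.2, Option.map_some,
    Option.getD_some, decide_eq_true_eq]

theorem adjB_iff {cls : List (List (ℕ × Bool))} {v w : List (ℕ × ℕ) × ℕ}
    {p q : (Fin K → {x // x ∈ items cls}) × ((Fin K → Lab) → Y)}
    (hv : Rep θ K cls v p) (hw : Rep θ K cls w q) :
    adjB θ K cls v w = true ↔
      Gap (fun (x : {x // x ∈ items cls}) a y b => Rb cls x.1 a y.1 b = true) θ K p q := by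
  unfold adjB Gap
  rw [Bool.and_eq_true, covB_iff θ K hv hw]
  refine and_congr_right fun _ => ?_
  rw [List.all_eq_true]
  constructor
  · intro h s s' h1 h2 h3
    have h4 := h s' (mem_SL K s')
    rw [List.all_eq_true] at h4
    have h5 := h4 s (mem_SL K s)
    rw [Bool.or_eq_true, (validB_iff θ K hv s').2 h1, (validB_iff θ K hw s).2 h2,
      (compB_iff θ K hv hw s' s).2 h3] at h5
    rcases h5 with h5 | h5
    · simp at h5
    · exact (table_get θ K hv hw s' s).1 h5
  · intro h s' _
    rw [List.all_eq_true]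
    intro s _
    rw [Bool.or_eq_true, Bool.not_eq_true']
    by_cases h1 : (validB K cls v.1 s' && validB K cls w.1 s && compB K v.1 w.1 s' s) = true
    · right
      rw [Bool.and_eq_true, Bool.and_eq_true] at h1
      exact (table_get θ K hv hw s' s).2 (h s s' ((validB_iff θ K hv s').1 h1.1.1)
        ((validB_iff θ K hw s).1 h1.1.2) ((compB_iff θ K hv hw s' s).1 h1.2))
    · left
      simpa using h1

end

end GapW

/-- The word of the gap graph is computed in polynomial time. -/
theorem gap_word {Y : Type} [Fintype Y] (θ : Y → Y → Prop) (K : ℕ) : ∃ f : List (List (ℕ × Bool)) → List Bool, Poly f ∧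
    ∀ cls, ∃ (n : ℕ) (A : Fin n → Fin n → Prop), f cls = code n A ∧
      HomTo A (Gap (fun (x : {x // x ∈ items cls}) a y b => Rb cls x.1 a y.1 b = true) θ K) ∧
      HomTo (Gap (fun (x : {x // x ∈ items cls}) a y b => Rb cls x.1 a y.1 b = true) θ K) A := by
  refine ⟨GapW.word θ K, GapW.poly_word θ K, fun cls => ?_⟩
  refine ⟨_, GapW.A θ K cls, GapW.word_eq θ K cls, ?_, ?_⟩
  · have h : ∀ i : Fin (GapW.verts θ K cls).length, ∃ p,
        GapW.Rep θ K cls ((GapW.verts θ K cls).get i) p :=
      fun i => GapW.exists_rep θ K cls _ (List.get_mem _ i)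
    choose g hg using h
    refine ⟨g, fun u v huv => ?_⟩
    exact (GapW.adjB_iff θ K (hg u) (hg v)).1 huv
  · have h : ∀ p : (Fin K → {x // x ∈ items cls}) × ((Fin K → Lab) → Y),
        ∃ i : Fin (GapW.verts θ K cls).length,
          GapW.Rep θ K cls ((GapW.verts θ K cls).get i) p := by
      intro p
      obtain ⟨v, hv, hr⟩ := GapW.rep_surj θ K cls p
      obtain ⟨i, hi⟩ := List.get_of_mem hv
      exact ⟨i, by rw [hi]; exact hr⟩
    choose g hg using h
    refine ⟨g, fun u v huv => ?_⟩
    exact (GapW.adjB_iff θ K (hg u) (hg v)).2 huv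

end Pool.Agent.Helper25.PT
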