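import Pool.Agent.Helper25.PT.Join

/-! Module PT-Nonempty -/

set_option autoImplicit false
set_option linter.all false

namespace Pool.Agent.Helper25.PT

open Pool.Agent.Helper25.PH (IsHom HomTo)

/-- PT-Nonempty. Some coordinate is relevant. -/
theorem exists_rlv {a : ℕ} {V F : Type} [Finite F] {E : V → V → Prop}
    (hE : ∀ u v, E u v → E v u) {ε : ℝ} (hε : 0 < ε)
    (hH : ∀ δ : ℝ, 0 < δ → ¬ HomTo (Bor (a + a + 1) δ) E) {f : (F → Sp a) → V}
    (hf : IsHom (PR (Bor a ε) F) E f) : ∃ i, Rlv E ε f i := by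
  classical
  by_contra hcon
  have h1 : ∀ (i : F) (A : Set F), Ho (Nu a ε) E (bin f A) (bin f (insert i A)) := by
    intro i A
    by_contra h
    exact hcon ⟨i, A, h⟩
  have h2 : ∀ A : Set F, A.Finite → Ho (Nu a ε) E (bin f ∅) (bin f A) := by
    intro A hA
    induction A, hA using Set.Finite.induction_on with
    | empty => exact Relation.ReflTransGen.refl
    | insert _ _ ih => exact Relation.ReflTransGen.trans ih (h1 _ _)
  have h3 := h2 Set.univ Set.finite_univ
  have hg : St (Nu a ε) E (bin f ∅) (bin f ∅) := by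
    intro p q hpq
    refine hf _ _ ?_
    intro j
    have h4 : (if j ∈ (∅ : Set F) then p.2 else p.1) = p.1 := if_neg (Set.notMem_empty j)
    have h5 : (if j ∈ (∅ : Set F) then q.2 else q.1) = q.1 := if_neg (Set.notMem_empty j)
    have := hpq.1
    simpa using this
  have hx : ∀ x y y' : Sp a, bin f (∅ : Set F) (x, y) = bin f (∅ : Set F) (x, y') := by
    intro x y y'
    simp [bin]
  have hy : ∀ x x' y : Sp a, bin f (Set.univ : Set F) (x, y) = bin f (Set.univ : Set F) (x', y) := by
    intro x x' y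
    simp [bin]
  obtain ⟨δ, hδ, h⟩ := join_hom hE hε h3 hg hx hy
  exact hH δ hδ h

end Pool.Agent.Helper25.PT
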