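import Pool.Agent.Helper25.PT.Sound
import Pool.Agent.Helper25.PT.GapWord
import Pool.Agent.Helper25.PT.Bdd
import Pool.Agent.Helper25.PT.Nonempty
import Pool.Agent.Helper25.PT.Compat
import Pool.Agent.Helper25.PT.ActEx
import Pool.Agent.Helper25.PH.Final

/-! Module PT-Final -/

set_option autoImplicit false
set_option linter.all false

namespace Pool.Agent.Helper25.PT

open Pool.Agent.Helper96
open Pool.Agent.Helper25.PH (IsHom HomTo Valid code Rb items Lab cnf_iff NPHardPCSP Yes No)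

/-- Completeness. -/
theorem gap_complete {J Λ Y : Type} (R : J → Λ → J → Λ → Prop) (θ : Y → Y → Prop) (K : ℕ)
    (h : ∃ σ : J → Λ, ∀ x y, R x (σ x) y (σ y)) : HomTo (Gap R θ K) θ := by
  obtain ⟨σ, hσ⟩ := h
  refine ⟨fun p => p.2 (fun i => σ (p.1 i)), ?_⟩
  rintro ⟨a, y⟩ ⟨b, z⟩ ⟨-, h2⟩
  refine h2 (fun i => σ (b i)) (fun i => σ (a i)) ?_ ?_ ?_
  · intro i j
    exact ⟨fun e => congrArg σ e, hσ _ _⟩
  · intro i j
    exact ⟨fun e => congrArg σ e, hσ _ _⟩
  · intro i j e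
    exact congrArg σ e

/-- Soundness. -/
theorem base_sound {V : Type} [Finite V] {a : ℕ} (ha : 1 ≤ a) {E : V → V → Prop}
    (hE : ∀ u v, E u v → E v u) (hH : ∀ δ : ℝ, 0 < δ → ¬ HomTo (Bor (a + a + 1) δ) E)
    {ε : ℝ} (hε : 0 < ε) {n : ℕ} (c : Fin (n + 1) → Sp a) (q : Sp a → Fin (n + 1))
    (hq : Measurable q) (hc : ∀ x, dist x (c (q x)) < ε / 4) :
    ∃ B : ℕ, ∀ (J Λ : Type) [Finite J] [Finite Λ] (R : J → Λ → J → Λ → Prop),
      HomTo (Gap R (fun k l => Bor a ε (c k) (c l)) (2 * B + 1)) E →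
      ∃ σ : J → Λ, ∀ x y, R x (σ x) y (σ y) := by
  obtain ⟨X⟩ := exists_act ha
  obtain ⟨B, hB⟩ := bdd X V (ε / 4) (by linarith)
  refine ⟨B, fun J Λ _ _ R h => ?_⟩
  have key : ∀ {F : Type} {y z : F → Sp a}, PR (Bor a (2 * (ε / 4))) F y z →
      PR (fun k l : Fin (n + 1) => Bor a ε (c k) (c l)) F (fun j => q (y j)) (fun j => q (z j)) := by
    intro F y z h j
    have h1 := h j
    have h2 := hc (y j)
    have h3 := hc (z j)
    rw [Subtype.dist_eq, dist_eq_norm] at h2 h3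
    unfold Bor at h1 ⊢
    have e : ((c (q (y j)) : Sp a) : Eu a) + ((c (q (z j)) : Sp a) : Eu a) =
        ((y j : Sp a) : Eu a) + ((z j : Sp a) : Eu a) -
          (((y j : Sp a) : Eu a) - ((c (q (y j)) : Sp a) : Eu a)) -
          (((z j : Sp a) : Eu a) - ((c (q (z j)) : Sp a) : Eu a)) := by abel
    rw [e]
    refine (norm_sub_le _ _).trans_lt ?_
    have h4 := norm_sub_le (((y j : Sp a) : Eu a) + ((z j : Sp a) : Eu a))
      (((y j : Sp a) : Eu a) - ((c (q (y j)) : Sp a) : Eu a))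
    linarith
  have hom : ∀ {F : Type} {f : (F → Fin (n + 1)) → V},
      IsHom (PR (fun k l : Fin (n + 1) => Bor a ε (c k) (c l)) F) E f →
      IsHom (PR (Bor a (2 * (ε / 4))) F) E (fun z => f fun j => q (z j)) :=
    fun hf y z h => hf _ _ (key h)
  have mono : ∀ {F : Type} {y z : F → Sp a}, PR (Bor a (ε / 4)) F y z →
      PR (Bor a (2 * (ε / 4))) F y z := fun h j => lt_of_lt_of_le (h j) (by linarith)
  refine sound_core E _ B
    (fun F f i => Rlv E (ε / 4) (fun z : F → Sp a => f fun j => q (z j)) i) ?_ ?_ ?_ R h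
  · intro F _ f hf
    exact exists_rlv hE (by linarith) hH (fun y z h => hom hf y z (mono h))
  · intro F _ f hf S hS
    exact hB E hE F (n + 1) q hq f (hom hf) S hS
  · intro F F' _ _ f f' π hf hf' hcc t ht
    refine rlv_compat hE π (fun y z h => hom hf y z (mono h)) (fun y z h => hom hf' y z (mono h))
      (fun y z h => ?_) t ht
    exact hcc _ _ (key (mono h))

/-- **Hardness**, Borsuk version. -/
theorem hard_borsuk {V W : Type} [Finite V] [Finite W] (G : SimpleGraph V) (H : SimpleGraph W)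
    (a : ℕ) (ha : 1 ≤ a) (hG : ∃ ε : ℝ, 0 < ε ∧ HomTo (Bor a ε) G.Adj)
    (hH : ∀ δ : ℝ, 0 < δ → ¬ HomTo (Bor (a + a + 1) δ) H.Adj) : NPHardPCSP G H := by
  obtain ⟨ε, hε, hG⟩ := hG
  obtain ⟨n, c, q, hq, hc⟩ := exists_net a (ε / 4) (by linarith)
  obtain ⟨B, hB⟩ := base_sound ha (E := H.Adj) (fun u v h => h.symm) hH hε c q hq hc
  intro L hL
  obtain ⟨f1, hf1, -, hw⟩ := Pool.Agent.Helper99.SC.sl_cnf L hL
  obtain ⟨g, hg, hgs⟩ := gap_word (fun k l : Fin (n + 1) => Bor a ε (c k) (c l)) (2 * B + 1)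
  refine ⟨fun w => g (f1 w).2, (Pool.Agent.Helper69.polyTimeFun_iff _).2 ?_, ?_, ?_⟩
  · exact hg.comp (Poly.snd hf1)
  · intro w hwL
    obtain ⟨n', A, h1, h2, h3⟩ := hgs (f1 w).2
    refine ⟨n', A, h1, ?_⟩
    have h7 := h2.trans (gap_complete _ _ _ ((cnf_iff _).1 ((hw w).1 hwL)))
    refine (h7.trans ?_).trans hG
    exact ⟨c, fun k l h => h⟩
  · intro w hwL
    obtain ⟨n', A, h1, h2, h3⟩ := hgs (f1 w).2
    refine ⟨n', A, h1, ?_⟩
    intro hcon
    apply hwL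
    rw [hw w, cnf_iff]
    exact hB _ _ _ (h3.trans hcon)

end Pool.Agent.Helper25.PT
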