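import Pool.Agent.Helper25.PT.Defs

/-! Module PT-Base -/

set_option autoImplicit false
set_option linter.all false

namespace Pool.Agent.Helper25.PT

open Pool.Agent.Helper25.PH (IsHom HomTo Myc Cyc)

namespace Base

/-- the norm in dimension one -/
theorem norm_eu_zero (x : Eu 0) : ‖x‖ = |x 0| := by
  rw [EuclideanSpace.norm_eq]
  simp [Real.sqrt_sq_eq_abs]

theorem sp_zero (x : Sp 0) : |(x : Eu 0) 0| = 1 := by
  have h := x.2
  rw [mem_sphere_zero_iff_norm, norm_eu_zero] at h
  exact h

/-- the position of a vertex of the generalised Mycielskian on the cycle -/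
noncomputable def pos (r : ℕ) : Option (Bool × Fin (r + 1)) → ZMod (2 * r + 3)
  | none => 0
  | some p => if p.1 = decide (p.2.1 % 2 = 0) then ((r : ZMod (2 * r + 3)) + 1 - (p.2.1 : ℕ))
      else (((p.2.1 : ℕ) : ZMod (2 * r + 3)) - r - 1)

/-- the inverse map -/
def vert (r : ℕ) (v : ℕ) : Option (Bool × Fin (r + 1)) :=
  if h0 : v = 0 then none
  else if h1 : v ≤ r + 1 then
    some (decide ((r + 1 - v) % 2 = 0), ⟨r + 1 - v, by omega⟩)
  else if h : v - (r + 2) < r + 1 then
    some (!decide ((v - (r + 2)) % 2 = 0), ⟨v - (r + 2), h⟩)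
  else none

theorem myc_symm (r : ℕ) (x y : Option (Bool × Fin (r + 1)))
    (h : Myc r (fun a b : Bool => a ≠ b) x y) : Myc r (fun a b : Bool => a ≠ b) y x := by
  rcases x with _ | p <;> rcases y with _ | q
  · exact h
  · exact h
  · exact h
  · refine ⟨Ne.symm h.1, ?_⟩
    rcases h.2 with h1 | h1 | h1
    · exact Or.inl ⟨h1.2, h1.1⟩
    · exact Or.inr (Or.inr h1)
    · exact Or.inr (Or.inl h1)

theorem vert_zero (r : ℕ) : vert r 0 = none := rfl

theorem vert_a (r i : ℕ) (h : i < r + 1) :
    vert r (r + 1 - i) = some (decide (i % 2 = 0), ⟨i, h⟩) := by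
  unfold vert
  have e : r + 1 - (r + 1 - i) = i := by omega
  rw [dif_neg (by omega), dif_pos (by omega)]
  simp only [e]

theorem vert_b (r i : ℕ) (h : i < r + 1) :
    vert r (r + 2 + i) = some (!decide (i % 2 = 0), ⟨i, h⟩) := by
  unfold vert
  have e : r + 2 + i - (r + 2) = i := by omega
  rw [dif_neg (by omega), dif_neg (by omega), dif_pos (by omega)]
  simp only [e]

theorem vert_step (r v : ℕ) (hv : v < 2 * r + 2) :
    Myc r (fun a b : Bool => a ≠ b) (vert r v) (vert r (v + 1)) := by
  rcases Nat.eq_zero_or_pos v with h0 | h0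
  · subst h0
    have e : 0 + 1 = r + 1 - r := by omega
    rw [vert_zero, e, vert_a r r (by omega)]
    rfl
  · rcases Nat.lt_or_ge v (r + 1) with h1 | h1
    · obtain ⟨i, hi⟩ : ∃ i, i = r + 1 - (v + 1) := ⟨_, rfl⟩
      have e1 : v = r + 1 - (i + 1) := by omega
      have e2 : v + 1 = r + 1 - i := by omega
      rw [e2, e1, vert_a r i (by omega), vert_a r (i + 1) (by omega)]
      refine ⟨?_, ?_⟩
      · show decide ((i + 1) % 2 = 0) ≠ decide (i % 2 = 0)
        intro h
        rw [decide_eq_decide] at h
        omega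
      · right; right
        rfl
    · rcases Nat.eq_or_lt_of_le h1 with h2 | h2
      · have e1 : v = r + 1 - 0 := by omega
        have e2 : v + 1 = r + 2 + 0 := by omega
        rw [e2, e1, vert_a r 0 (by omega), vert_b r 0 (by omega)]
        refine ⟨?_, Or.inl ⟨rfl, rfl⟩⟩
        simp
      · obtain ⟨i, hi⟩ : ∃ i, i = v - (r + 2) := ⟨_, rfl⟩
        have e1 : v = r + 2 + i := by omega
        have e2 : v + 1 = r + 2 + (i + 1) := by omega
        rw [e2, e1, vert_b r i (by omega), vert_b r (i + 1) (by omega)]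
        refine ⟨?_, ?_⟩
        · show (!decide (i % 2 = 0)) ≠ !decide ((i + 1) % 2 = 0)
          intro h
          rw [Bool.not_inj_iff, decide_eq_decide] at h
          omega
        · right; left
          rfl

theorem vert_last (r : ℕ) :
    Myc r (fun a b : Bool => a ≠ b) (vert r (2 * r + 2)) (vert r 0) := by
  have e : 2 * r + 2 = r + 2 + r := by omega
  rw [vert_zero, e, vert_b r r (by omega)]
  rfl

theorem vert_cyc (r : ℕ) (x : ZMod (2 * r + 3)) :
    Myc r (fun a b : Bool => a ≠ b) (vert r x.val) (vert r (x + 1).val) := by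
  haveI : Fact (1 < 2 * r + 3) := ⟨by omega⟩
  have hx : x.val < 2 * r + 3 := ZMod.val_lt x
  have h1 : (x + 1).val = (x.val + 1) % (2 * r + 3) := by
    rw [ZMod.val_add, ZMod.val_one]
  rcases Nat.lt_or_ge x.val (2 * r + 2) with h2 | h2
  · rw [h1, Nat.mod_eq_of_lt (by omega)]
    exact vert_step r _ h2
  · have h3 : x.val = 2 * r + 2 := by omega
    rw [h1, h3, Nat.mod_self]
    exact vert_last r

end Base

/-- PT-Base-a. -/
theorem bor_zero : HomTo (Bor 0 1) (fun a b : Bool => a ≠ b) := by
  classical
  refine ⟨fun x => decide (0 < (x : Eu 0) 0), ?_⟩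
  intro x y h
  have h1 := Base.sp_zero x
  have h2 := Base.sp_zero y
  have h3 : |(x : Eu 0) 0 + (y : Eu 0) 0| < 1 := by
    have := h
    unfold Bor at this
    rw [Base.norm_eu_zero] at this
    exact this
  rw [abs_lt] at h3
  intro h4
  rw [decide_eq_decide] at h4
  rcases abs_cases ((x : Eu 0) 0) with h5 | h5 <;> rcases abs_cases ((y : Eu 0) 0) with h6 | h6
  · linarith
  · have : 0 < (x : Eu 0) 0 := by linarith
    have := h4.1 this
    linarith
  · have : 0 < (y : Eu 0) 0 := by linarith
    have := h4.2 this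
    linarith
  · linarith

/-- PT-Base-b. -/
theorem zero_bor (δ : ℝ) (hδ : 0 < δ) : HomTo (fun a b : Bool => a ≠ b) (Bor 0 δ) := by
  have h0 : ‖(EuclideanSpace.single (0 : Fin 1) (1 : ℝ) : Eu 0)‖ = 1 := by simp
  refine ⟨fun b => if b then ⟨EuclideanSpace.single (0 : Fin 1) (1 : ℝ), by
    rw [mem_sphere_zero_iff_norm]; exact h0⟩ else ⟨-EuclideanSpace.single (0 : Fin 1) (1 : ℝ), by
    rw [mem_sphere_zero_iff_norm, norm_neg]; exact h0⟩, ?_⟩
  intro a b h
  unfold Bor
  cases a <;> cases b
  · exact absurd rfl h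
  · simp [hδ]
  · simp [hδ]
  · exact absurd rfl h

/-- PT-Base-c. -/
theorem myc_cyc (r : ℕ) : HomTo (Myc r (fun a b : Bool => a ≠ b)) (Cyc (2 * r + 3)) := by
  refine ⟨Base.pos r, ?_⟩
  have hN : (2 : ZMod (2 * r + 3)) * r + 3 = 0 := by
    have h := ZMod.natCast_self (2 * r + 3)
    push_cast at h
    exact h
  intro x y h
  rcases x with _ | ⟨b, i, hi⟩ <;> rcases y with _ | ⟨c, j, hj⟩
  · exact absurd h (by simp [Myc])
  · have hj' : j = r := h
    subst hj'
    unfold Base.pos Cyc
    dsimp only
    split_ifs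
    · left; ring
    · right; ring
  · have hi' : i = r := h
    subst hi'
    unfold Base.pos Cyc
    dsimp only
    split_ifs
    · right; ring
    · left; ring
  · obtain ⟨h1, h2⟩ := h
    dsimp only at h1 h2
    have hcb : c = !b := by
      cases b <;> cases c <;> simp_all
    subst hcb
    unfold Base.pos Cyc
    dsimp only
    rcases h2 with ⟨h3, h4⟩ | h3 | h3
    · subst h3 h4
      cases b
      · simp only [Bool.not_false, Nat.zero_mod, decide_true, Bool.false_eq_true, if_false, if_true,
          Nat.cast_zero]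
        right
        linear_combination -hN
      · simp only [Bool.not_true, Nat.zero_mod, decide_true, Bool.false_eq_true, if_false, if_true,
          Nat.cast_zero]
        left
        linear_combination -hN
    · subst h3
      have e : (!b) = decide ((i + 1) % 2 = 0) ↔ b = decide (i % 2 = 0) := by
        rcases Nat.mod_two_eq_zero_or_one i with h5 | h5
        · have h6 : (i + 1) % 2 = 1 := by omega
          rw [h5, h6]
          cases b <;> simp
        · have h6 : (i + 1) % 2 = 0 := by omega
          rw [h5, h6]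
          cases b <;> simp
      by_cases hb : b = decide (i % 2 = 0)
      · rw [if_pos hb, if_pos (e.2 hb)]
        right
        push_cast
        ring
      · rw [if_neg hb, if_neg (fun h => hb (e.1 h))]
        left
        push_cast
        ring
    · subst h3
      have e : b = decide ((j + 1) % 2 = 0) ↔ (!b) = decide (j % 2 = 0) := by
        rcases Nat.mod_two_eq_zero_or_one j with h5 | h5
        · have h6 : (j + 1) % 2 = 1 := by omega
          rw [h5, h6]
          cases b <;> simp
        · have h6 : (j + 1) % 2 = 0 := by omega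
          rw [h5, h6]
          cases b <;> simp
      by_cases hb : (!b) = decide (j % 2 = 0)
      · rw [if_pos hb, if_pos (e.2 hb)]
        left
        push_cast
        ring
      · rw [if_neg hb, if_neg (fun h => hb (e.1 h))]
        right
        push_cast
        ring

/-- PT-Base-d. -/
theorem cyc_myc (r : ℕ) : HomTo (Cyc (2 * r + 3)) (Myc r (fun a b : Bool => a ≠ b)) := by
  refine ⟨fun x => Base.vert r x.val, ?_⟩
  intro x y h
  rcases h with h | h
  · subst h
    exact Base.vert_cyc r x
  · subst h
    exact Base.myc_symm r _ _ (Base.vert_cyc r y)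

/-- PT-Base-e. -/
theorem any_cyc_one {V : Type} (E : V → V → Prop) : HomTo E (Cyc 1) :=
  ⟨fun _ => 0, fun _ _ _ => Or.inl (Subsingleton.elim _ _)⟩

end Pool.Agent.Helper25.PT
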