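import Pool.Agent.Helper25.PT.Split

/-! Module PT-Conv2 -/

set_option autoImplicit false
set_option linter.all false

namespace Pool.Agent.Helper25.PT

open Pool.Agent.Helper25.PH (IsHom HomTo Myc)

theorem Conv2_cos (x y : ℝ) : |Real.cos x - Real.cos y| ≤ |x - y| := by
  rw [Real.cos_sub_cos, abs_mul, abs_mul]
  have h1 : |Real.sin ((x - y) / 2)| ≤ |(x - y) / 2| := Real.abs_sin_le_abs
  have h2 : |Real.sin ((x + y) / 2)| ≤ 1 := Real.abs_sin_le_one _
  have h3 : |(-2 : ℝ)| = 2 := by norm_num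
  rw [h3]
  have h4 : |(x - y) / 2| = |x - y| / 2 := by rw [abs_div]; norm_num
  rw [h4] at h1
  have h5 : 0 ≤ |Real.sin ((x + y) / 2)| := abs_nonneg _
  have h6 : 0 ≤ |Real.sin ((x - y) / 2)| := abs_nonneg _
  have h7 : 0 ≤ |x - y| := abs_nonneg _
  nlinarith

theorem Conv2_sin (x y : ℝ) : |Real.sin x - Real.sin y| ≤ |x - y| := by
  rw [Real.sin_sub_sin, abs_mul, abs_mul]
  have h1 : |Real.sin ((x - y) / 2)| ≤ |(x - y) / 2| := Real.abs_sin_le_abs
  have h2 : |Real.cos ((x + y) / 2)| ≤ 1 := Real.abs_cos_le_one _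
  have h3 : |(2 : ℝ)| = 2 := by norm_num
  rw [h3]
  have h4 : |(x - y) / 2| = |x - y| / 2 := by rw [abs_div]; norm_num
  rw [h4] at h1
  have h5 : 0 ≤ |Real.cos ((x + y) / 2)| := abs_nonneg _
  have h6 : 0 ≤ |Real.sin ((x - y) / 2)| := abs_nonneg _
  have h7 : 0 ≤ |x - y| := abs_nonneg _
  nlinarith

/-- PT-Conv2. From the generalised Mycielskian to the Borsuk graph. -/
theorem myc_bor {a : ℕ} {V : Type} {E : V → V → Prop} {δ : ℝ} (hδ : 0 < δ)
    (h : HomTo E (Bor a (δ / 2))) : ∃ r : ℕ, HomTo (Myc r E) (Bor (a + 1) δ) := by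
  obtain ⟨f, hf⟩ := h
  obtain ⟨e, he⟩ := split a 0
  obtain ⟨r, hr⟩ := exists_nat_gt (Real.pi / (δ / 2))
  refine ⟨r, ?_⟩
  have hr1 : Real.pi < (r + 1 : ℝ) * (δ / 2) := by
    rw [div_lt_iff₀ (by positivity)] at hr
    nlinarith
  set η : ℝ := Real.pi / 2 / (r + 1) with hη
  have hη0 : 0 < η := by positivity
  have hη2 : 2 * η < δ / 2 := by
    rw [hη]
    have : 2 * (Real.pi / 2 / ((r : ℝ) + 1)) = Real.pi / (r + 1) := by ring
    rw [this, div_lt_iff₀ (by positivity)]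
    linarith
  let u0 : Eu 0 := EuclideanSpace.single 0 (1 : ℝ)
  have hu0 : ‖u0‖ = 1 := by simp [u0]
  -- the points
  let P : ℝ → ℝ → Eu a → Eu (a + 1) := fun θ s z => e (Real.cos θ • z, (s * Real.sin θ) • u0)
  have hPn : ∀ θ s z, (‖P θ s z‖) ^ 2 = (Real.cos θ) ^ 2 * ‖z‖ ^ 2 + s ^ 2 * (Real.sin θ) ^ 2 := by
    intro θ s z
    have := he (Real.cos θ • z) ((s * Real.sin θ) • u0)
    simp only [P]
    rw [norm_smul, norm_smul, hu0, mul_one, mul_pow, Real.norm_eq_abs, Real.norm_eq_abs, sq_abs,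
      sq_abs, mul_pow] at this
    exact this
  have hP1 : ∀ θ s z, s ^ 2 = 1 → ‖z‖ = 1 → ‖P θ s z‖ = 1 := by
    intro θ s z hs hz
    have h1 := hPn θ s z
    rw [hz, hs, one_pow, mul_one, one_mul, Real.cos_sq_add_sin_sq] at h1
    have h2 : 0 ≤ ‖P θ s z‖ := norm_nonneg _
    nlinarith
  have hPa : ∀ s z, s ^ 2 = 1 → ‖P (Real.pi / 2) s z‖ = 1 := by
    intro s z hs
    have h1 := hPn (Real.pi / 2) s z
    rw [hs, Real.cos_pi_div_two, Real.sin_pi_div_two] at h1
    have h2 : 0 ≤ ‖P (Real.pi / 2) s z‖ := norm_nonneg _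
    nlinarith
  have hPc : ∀ s z z', P (Real.pi / 2) s z = P (Real.pi / 2) s z' := by
    intro s z z'
    simp only [P, Real.cos_pi_div_two, zero_smul]
  have hadd : ∀ θ θ' s s' z z', ‖P θ s z + P θ' s' z'‖ ≤
      |Real.cos θ| * ‖z + z'‖ + |Real.cos θ - Real.cos θ'| * ‖z'‖ +
        |s * Real.sin θ + s' * Real.sin θ'| := by
    intro θ θ' s s' z z'
    have h1 : P θ s z + P θ' s' z' = e (Real.cos θ • z + Real.cos θ' • z',
        (s * Real.sin θ + s' * Real.sin θ') • u0) := by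
      simp only [P]
      rw [← map_add, Prod.mk_add_mk, add_smul]
    have h2 := he (Real.cos θ • z + Real.cos θ' • z') ((s * Real.sin θ + s' * Real.sin θ') • u0)
    rw [norm_smul _ u0, hu0, mul_one, Real.norm_eq_abs] at h2
    have h3 : Real.cos θ • z + Real.cos θ' • z' =
        Real.cos θ • (z + z') - (Real.cos θ - Real.cos θ') • z' := by
      rw [smul_add, sub_smul]; abel
    have h4 : ‖Real.cos θ • z + Real.cos θ' • z'‖ ≤
        |Real.cos θ| * ‖z + z'‖ + |Real.cos θ - Real.cos θ'| * ‖z'‖ := by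
      rw [h3]
      refine (norm_sub_le _ _).trans ?_
      rw [norm_smul, norm_smul, Real.norm_eq_abs, Real.norm_eq_abs]
    rw [h1]
    set A := ‖Real.cos θ • z + Real.cos θ' • z'‖ with hA
    set B := |s * Real.sin θ + s' * Real.sin θ'| with hB
    have hA0 : 0 ≤ A := norm_nonneg _
    have hB0 : 0 ≤ B := abs_nonneg _
    have h5 : ‖e (Real.cos θ • z + Real.cos θ' • z', (s * Real.sin θ + s' * Real.sin θ') • u0)‖
        ≤ A + B := by
      refine abs_le_of_sq_le_sq' ?_ (by positivity) |>.2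
      rw [h2]; nlinarith
    linarith
  let th : ℕ → ℝ := fun i => i * η
  have hth0 : th 0 = 0 := by simp [th]
  have hthr : th (r + 1) = Real.pi / 2 := by
    simp only [th, hη]; push_cast; field_simp
  have hsg : ∀ i : ℕ, ((-1 : ℝ) ^ i) ^ 2 = 1 := by
    intro i; rw [← pow_mul, mul_comm, pow_mul]; norm_num
  have hfn : ∀ x, ‖(f x : Eu a)‖ = 1 := fun x => by
    have := (f x).2
    simpa [mem_sphere_zero_iff_norm] using this
  -- the key estimate
  have hkey : ∀ (i : ℕ) (z z' : Eu a), ‖z'‖ = 1 → ‖z + z'‖ < δ / 2 →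
      ‖P (th i) ((-1) ^ i) z + P (th (i + 1)) ((-1) ^ (i + 1)) z'‖ < δ := by
    intro i z z' hz' hzz
    have h1 := hadd (th i) (th (i + 1)) ((-1) ^ i) ((-1) ^ (i + 1)) z z'
    have h2 : |th i - th (i + 1)| = η := by
      simp only [th]; push_cast
      have : (i : ℝ) * η - (i + 1) * η = -η := by ring
      rw [this, abs_neg, abs_of_pos hη0]
    have h3 := Conv2_cos (th i) (th (i + 1))
    have h4 := Conv2_sin (th i) (th (i + 1))
    rw [h2] at h3 h4
    have h5 : |(-1 : ℝ) ^ i * Real.sin (th i) + (-1) ^ (i + 1) * Real.sin (th (i + 1))| =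
        |Real.sin (th i) - Real.sin (th (i + 1))| := by
      have : (-1 : ℝ) ^ i * Real.sin (th i) + (-1) ^ (i + 1) * Real.sin (th (i + 1)) =
          (-1) ^ i * (Real.sin (th i) - Real.sin (th (i + 1))) := by
        rw [pow_succ]; ring
      rw [this, abs_mul, abs_pow, abs_neg, abs_one, one_pow, one_mul]
    rw [h5, hz', mul_one] at h1
    have h6 : |Real.cos (th i)| * ‖z + z'‖ ≤ 1 * ‖z + z'‖ :=
      mul_le_mul_of_nonneg_right (Real.abs_cos_le_one _) (norm_nonneg _)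
    linarith
  refine ⟨fun p => match p with
    | none => ⟨P (Real.pi / 2) ((-1) ^ (r + 1)) 0, by
        rw [mem_sphere_zero_iff_norm]; exact hPa _ _ (hsg _)⟩
    | some (x, i) => ⟨P (th i.1) ((-1) ^ i.1) (f x), by
        rw [mem_sphere_zero_iff_norm]; exact hP1 _ _ _ (hsg _) (hfn _)⟩, ?_⟩
  have hsome : ∀ (x y : V), E x y → ‖(f x : Eu a) + (f y : Eu a)‖ < δ / 2 := fun x y hxy => hf x y hxy
  have hcomm : ∀ z z' : Eu (a + 1), ‖z + z'‖ = ‖z' + z‖ := fun z z' => by
    have h3 : z + z' = z' + z := add_comm _ _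
    rw [h3]
  have hapex : ∀ x : V, ‖P (th r) ((-1) ^ r) (f x : Eu a) +
      P (Real.pi / 2) ((-1) ^ (r + 1)) 0‖ < δ := by
    intro x
    have h1 := hkey r (f x) (-(f x : Eu a)) (by rw [norm_neg]; exact hfn x) (by
      rw [add_neg_cancel, norm_zero]; positivity)
    rw [hthr] at h1
    rw [hPc _ 0 (-(f x : Eu a))]
    exact h1
  rintro (_ | ⟨x, i⟩) (_ | ⟨y, j⟩) hE
  · exact hE.elim
  · simp only [Myc] at hE
    simp only [Bor, hE]
    rw [hcomm]
    exact hapex y
  · simp only [Myc] at hE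
    simp only [Bor, hE]
    exact hapex x
  · simp only [Myc] at hE
    obtain ⟨hxy, h | h | h⟩ := hE
    · simp only [Bor, h.1, h.2]
      have h1 := hadd (th 0) (th 0) ((-1) ^ 0) ((-1) ^ 0) (f x) (f y)
      rw [hth0, Real.cos_zero, Real.sin_zero] at h1
      rw [hth0]
      have h2 := hsome x y hxy
      simp only [sub_self, abs_zero, zero_mul, mul_zero, add_zero, abs_one, one_mul] at h1
      linarith
    · simp only [Bor, h]
      exact hkey i.1 _ _ (hfn y) (hsome x y hxy)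
    · simp only [Bor, h]
      rw [hcomm]
      have h2 : ‖(f y : Eu a) + (f x : Eu a)‖ < δ / 2 := by
        have h3 : (f y : Eu a) + (f x : Eu a) = (f x : Eu a) + (f y : Eu a) := add_comm _ _
        rw [h3]
        exact hsome x y hxy
      exact hkey j.1 _ _ (hfn x) h2

end Pool.Agent.Helper25.PT
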