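import Pool.Agent.Helper25.PT.Conv1
import Pool.Agent.Helper25.PT.Conv2
import Pool.Agent.Helper25.PT.Base
import Pool.Agent.Helper25.PH.MycWord

/-! Module PT-Conv -/

set_option autoImplicit false
set_option linter.all false

namespace Pool.Agent.Helper25.PT

open Pool.Agent.Helper25.PH (IsHom HomTo Myc Cyc gmyc cyc)

/-- PT-Conv-a. -/
theorem bor_gmyc (rs : List ℕ) (m : ℕ) (hm : Odd m) :
    ∃ ε : ℝ, 0 < ε ∧ HomTo (Bor (rs.length + 1) ε) (gmyc rs (cyc m)).E := by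
  induction rs with
  | nil =>
    obtain ⟨j, rfl⟩ := hm
    rcases j with _ | j
    · exact ⟨1, one_pos, any_cyc_one _⟩
    · obtain ⟨ε, hε, h⟩ := bor_myc (a := 0) j one_pos bor_zero
      refine ⟨ε, hε, ?_⟩
      have := h.trans (myc_cyc j)
      rw [show 2 * (j + 1) + 1 = 2 * j + 3 by ring]
      exact this
  | cons r rs ih =>
    obtain ⟨ε, hε, h⟩ := ih
    exact bor_myc r hε h

/-- PT-Conv-b. -/
theorem gmyc_bor (k : ℕ) (δ : ℝ) (hδ : 0 < δ) :
    ∃ (qs : List ℕ) (l : ℕ), qs.length = k ∧ Odd l ∧ 3 ≤ l ∧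
      HomTo (gmyc qs (cyc l)).E (Bor (k + 1) δ) := by
  induction k generalizing δ with
  | zero =>
    obtain ⟨r, h⟩ := myc_bor (a := 0) hδ (zero_bor (δ / 2) (half_pos hδ))
    exact ⟨[], 2 * r + 3, rfl, ⟨r + 1, by ring⟩, by omega, (cyc_myc r).trans h⟩
  | succ k ih =>
    obtain ⟨qs, l, h1, h2, h3, h4⟩ := ih (δ / 2) (half_pos hδ)
    obtain ⟨r, h⟩ := myc_bor hδ h4
    exact ⟨r :: qs, l, by simp [h1], h2, h3, h⟩

end Pool.Agent.Helper25.PT
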