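import Pool.Agent.Helper25.PT.Split

/-! Module PT-Conv1 -/

set_option autoImplicit false
set_option linter.all false

namespace Pool.Agent.Helper25.PT

open Pool.Agent.Helper25.PH (IsHom HomTo Myc)

/-- the level of the height `T` -/
private noncomputable def conv1Lev (T : ℝ) : ℕ :=
  if T < 0 then 2 * ⌊-T / 2⌋₊ else if T < 1 then 0 else 2 * ⌊(T - 1) / 2⌋₊ + 1

private theorem conv1_lev_neg {T T' : ℝ} (hT : T < 0) (hT' : 0 ≤ T') (h : |T + T'| < 1) :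
    (conv1Lev T = 0 ∧ conv1Lev T' = 0) ∨ conv1Lev T' = conv1Lev T + 1 ∨
      conv1Lev T = conv1Lev T' + 1 := by
  rw [abs_lt] at h
  have e1 : conv1Lev T = 2 * ⌊-T / 2⌋₊ := by simp [conv1Lev, hT]
  have h1 : (⌊-T / 2⌋₊ : ℝ) ≤ -T / 2 := Nat.floor_le (by linarith)
  have h2 : -T / 2 < (⌊-T / 2⌋₊ : ℝ) + 1 := Nat.lt_floor_add_one _
  by_cases h3 : T' < 1
  · have e2 : conv1Lev T' = 0 := by simp [conv1Lev, not_lt.2 hT', h3]
    left
    refine ⟨?_, e2⟩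
    rw [e1]
    have h4 : ⌊-T / 2⌋₊ = 0 := by
      rw [Nat.floor_eq_zero]
      linarith [h.1, h.2]
    rw [h4]
  · have e2 : conv1Lev T' = 2 * ⌊(T' - 1) / 2⌋₊ + 1 := by
      simp [conv1Lev, not_lt.2 hT', h3]
    have h4 : (⌊(T' - 1) / 2⌋₊ : ℝ) ≤ (T' - 1) / 2 := Nat.floor_le (by linarith [not_lt.1 h3])
    have h5 : (T' - 1) / 2 < (⌊(T' - 1) / 2⌋₊ : ℝ) + 1 := Nat.lt_floor_add_one _
    set m := ⌊-T / 2⌋₊ with hm
    set n := ⌊(T' - 1) / 2⌋₊ with hn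
    have h6 : (n : ℝ) < m + 1 := by linarith [h.1, h.2]
    have h7 : (m : ℝ) < n + 2 := by linarith [h.1, h.2]
    have h6' : n < m + 1 := by exact_mod_cast h6
    have h7' : m < n + 2 := by exact_mod_cast h7
    rw [e1, e2]
    omega

private theorem conv1_lev {T T' : ℝ} (h : |T + T'| < 1) :
    (conv1Lev T = 0 ∧ conv1Lev T' = 0) ∨ conv1Lev T' = conv1Lev T + 1 ∨
      conv1Lev T = conv1Lev T' + 1 := by
  rcases lt_or_ge T 0 with hT | hT
  · rcases lt_or_ge T' 0 with hT' | hT'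
    · rw [abs_lt] at h
      left
      have h1 : ⌊-T / 2⌋₊ = 0 := by rw [Nat.floor_eq_zero]; linarith
      have h2 : ⌊-T' / 2⌋₊ = 0 := by rw [Nat.floor_eq_zero]; linarith
      simp [conv1Lev, hT, hT', h1, h2]
    · exact conv1_lev_neg hT hT' h
  · rcases lt_or_ge T' 0 with hT' | hT'
    · rw [add_comm] at h
      rcases conv1_lev_neg hT' hT h with h1 | h1 | h1
      · exact Or.inl ⟨h1.2, h1.1⟩
      · exact Or.inr (Or.inr h1)
      · exact Or.inr (Or.inl h1)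
    · rw [abs_lt] at h
      left
      have h1 : T < 1 := by linarith
      have h2 : T' < 1 := by linarith
      simp [conv1Lev, not_lt.2 hT, not_lt.2 hT', h1, h2]

private theorem conv1_abs (T : ℝ) : |T| < conv1Lev T + 2 := by
  unfold conv1Lev
  split_ifs with h1 h2
  · have h3 : -T / 2 < (⌊-T / 2⌋₊ : ℝ) + 1 := Nat.lt_floor_add_one _
    rw [abs_of_neg h1]
    push_cast
    linarith
  · rw [abs_of_nonneg (not_lt.1 h1)]
    norm_num
    linarith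
  · have h3 : (T - 1) / 2 < (⌊(T - 1) / 2⌋₊ : ℝ) + 1 := Nat.lt_floor_add_one _
    rw [abs_of_nonneg (not_lt.1 h1)]
    push_cast
    linarith

open Classical in
/-- the vertex of level `k` -/
private noncomputable def conv1Vtx (r : ℕ) {V : Type} (k : ℕ) (v : V) : Option (V × Fin (r + 1)) :=
  if r + 1 ≤ k ∧ k % 2 = (r + 1) % 2 then none
  else some (v, ⟨min k r, Nat.lt_succ_of_le (min_le_right _ _)⟩)

private theorem conv1_adj (r : ℕ) {V : Type} {E : V → V → Prop} (k k' : ℕ) (v v' : V)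
    (h : (k = 0 ∧ k' = 0) ∨ k' = k + 1 ∨ k = k' + 1) (hE : k ≤ r → k' ≤ r → E v v') :
    Myc r E (conv1Vtx r k v) (conv1Vtx r k' v') := by
  unfold conv1Vtx
  by_cases h1 : r + 1 ≤ k ∧ k % 2 = (r + 1) % 2
  · rw [if_pos h1]
    have h2 : ¬ (r + 1 ≤ k' ∧ k' % 2 = (r + 1) % 2) := by omega
    rw [if_neg h2]
    show min k' r = r
    omega
  · rw [if_neg h1]
    by_cases h2 : r + 1 ≤ k' ∧ k' % 2 = (r + 1) % 2
    · rw [if_pos h2]
      show min k r = r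
      omega
    · rw [if_neg h2]
      have h3 : k ≤ r := by omega
      have h4 : k' ≤ r := by omega
      refine ⟨hE h3 h4, ?_⟩
      show (min k r = 0 ∧ min k' r = 0) ∨ min k' r = min k r + 1 ∨ min k r = min k' r + 1
      omega

private theorem conv1_norm (v : Eu 0) : ‖v‖ ^ 2 = (v 0) ^ 2 := by
  rw [EuclideanSpace.norm_sq_eq]
  simp

/-- PT-Conv1. From the Borsuk graph to the generalised Mycielskian. -/
theorem bor_myc {a : ℕ} (r : ℕ) {V : Type} {E : V → V → Prop} {ε : ℝ} (hε : 0 < ε)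
    (h : HomTo (Bor a ε) E) : ∃ ε' : ℝ, 0 < ε' ∧ HomTo (Bor (a + 1) ε') (Myc r E) := by
  obtain ⟨φ, hφ⟩ := h
  obtain ⟨e, he⟩ := split a 0
  have he' : ∀ ξ : Eu (a + 1), ‖ξ‖ ^ 2 = ‖(e.symm ξ).1‖ ^ 2 + ((e.symm ξ).2 0) ^ 2 := by
    intro ξ
    rw [← conv1_norm, ← he]
    congr 2
    exact (e.apply_symm_apply ξ).symm
  set C : ℝ := 2 * ((r : ℝ) + 2) with hC
  have hC0 : 0 < C := by positivity
  refine ⟨min (1 / C) (ε / 4), by positivity,
    fun ξ => conv1Vtx r (conv1Lev (C * (e.symm (ξ : Eu (a + 1))).2 0))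
      (φ (nrm (e.symm (ξ : Eu (a + 1))).1)), ?_⟩
  intro ξ ξ' hξ
  have hξ1 : ‖(ξ : Eu (a + 1)) + (ξ' : Eu (a + 1))‖ < 1 / C := lt_of_lt_of_le hξ (min_le_left _ _)
  have hξ2 : ‖(ξ : Eu (a + 1)) + (ξ' : Eu (a + 1))‖ < ε / 4 := lt_of_lt_of_le hξ (min_le_right _ _)
  have hn := he' (ξ : Eu (a + 1))
  have hn' := he' (ξ' : Eu (a + 1))
  have hs := he' ((ξ : Eu (a + 1)) + (ξ' : Eu (a + 1)))
  have hadd : e.symm ((ξ : Eu (a + 1)) + (ξ' : Eu (a + 1))) =
      e.symm (ξ : Eu (a + 1)) + e.symm (ξ' : Eu (a + 1)) := map_add _ _ _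
  rw [hadd, Prod.fst_add, Prod.snd_add, PiLp.add_apply] at hs
  have h1 : ‖(ξ : Eu (a + 1))‖ = 1 := by simpa using ξ.2
  have h1' : ‖(ξ' : Eu (a + 1))‖ = 1 := by simpa using ξ'.2
  rw [h1] at hn
  rw [h1'] at hn'
  show Myc r E (conv1Vtx r (conv1Lev (C * (e.symm (ξ : Eu (a + 1))).2 0))
      (φ (nrm (e.symm (ξ : Eu (a + 1))).1))) (conv1Vtx r
      (conv1Lev (C * (e.symm (ξ' : Eu (a + 1))).2 0)) (φ (nrm (e.symm (ξ' : Eu (a + 1))).1)))
  generalize (e.symm (ξ : Eu (a + 1))).1 = u at *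
  generalize (e.symm (ξ' : Eu (a + 1))).1 = u' at *
  generalize (e.symm (ξ : Eu (a + 1))).2 0 = t at *
  generalize (e.symm (ξ' : Eu (a + 1))).2 0 = t' at *
  have hsum0 : 0 ≤ ‖(ξ : Eu (a + 1)) + (ξ' : Eu (a + 1))‖ := norm_nonneg _
  have ht : |t + t'| ≤ ‖(ξ : Eu (a + 1)) + (ξ' : Eu (a + 1))‖ := by
    apply abs_le_of_sq_le_sq _ hsum0
    rw [hs]
    have := sq_nonneg ‖u + u'‖
    linarith
  have hu : ‖u + u'‖ ≤ ‖(ξ : Eu (a + 1)) + (ξ' : Eu (a + 1))‖ := by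
    apply le_of_sq_le_sq _ hsum0
    rw [hs]
    have := sq_nonneg (t + t')
    linarith
  apply conv1_adj
  · apply conv1_lev
    rw [← mul_add, abs_mul, abs_of_pos hC0]
    calc C * |t + t'| ≤ C * ‖(ξ : Eu (a + 1)) + (ξ' : Eu (a + 1))‖ := by gcongr
      _ < C * (1 / C) := by gcongr
      _ = 1 := by field_simp
  · intro hk hk'
    apply hφ
    have key : ∀ (s : ℝ) (w : Eu a), (1 : ℝ) ^ 2 = ‖w‖ ^ 2 + s ^ 2 → conv1Lev (C * s) ≤ r →
        1 / 2 ≤ ‖w‖ := by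
      intro s w hw hl
      have h2 := conv1_abs (C * s)
      have h3 : (conv1Lev (C * s) : ℝ) ≤ r := by exact_mod_cast hl
      have h4 : C * |s| < r + 2 := by
        rw [abs_mul, abs_of_pos hC0] at h2
        linarith
      have h5 : |s| < 1 / 2 := by
        have h6 : C * |s| < C * (1 / 2) := by rw [hC] at h4 ⊢; linarith
        exact lt_of_mul_lt_mul_left h6 hC0.le
      have h6 : s ^ 2 < (1 / 2) ^ 2 := by
        rw [← sq_abs]
        have := abs_nonneg s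
        nlinarith
      by_contra h7
      push Not at h7
      have h8 := norm_nonneg w
      nlinarith
    have h2 := key t u hn hk
    have h2' := key t' u' hn' hk'
    show ‖(nrm u : Eu a) + (nrm u' : Eu a)‖ < ε
    calc ‖(nrm u : Eu a) + (nrm u' : Eu a)‖ ≤ 2 * ‖u + u'‖ / (1 / 2) :=
          nrm_add (by norm_num) h2 h2'
      _ = 4 * ‖u + u'‖ := by ring
      _ ≤ 4 * ‖(ξ : Eu (a + 1)) + (ξ' : Eu (a + 1))‖ := by gcongr
      _ < 4 * (ε / 4) := by gcongr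
      _ = ε := by ring

end Pool.Agent.Helper25.PT
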