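import Mathlib

/-! Module PT-Haar -/

set_option autoImplicit false
set_option linter.all false

namespace Pool.Agent.Helper25.PT

open MeasureTheory

/-- PT-Haar. A two-sided invariant probability measure on a compact group. -/
theorem haar2 (K : Type) [Group K] [TopologicalSpace K] [IsTopologicalGroup K] [CompactSpace K]
    [T2Space K] [SecondCountableTopology K] [MeasurableSpace K] [BorelSpace K] :
    ∃ μ : Measure K, IsProbabilityMeasure μ ∧ μ.IsMulLeftInvariant ∧ μ.IsMulRightInvariant := by
  have hp : IsProbabilityMeasure (Measure.haarMeasure (⊤ : TopologicalSpace.PositiveCompacts K)) :=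
    ⟨by
      have h := Measure.haarMeasure_self (K₀ := (⊤ : TopologicalSpace.PositiveCompacts K))
      simpa using h⟩
  refine ⟨Measure.haarMeasure ⊤, hp, inferInstance, ⟨fun g => ?_⟩⟩
  have h1 : IsProbabilityMeasure (Measure.map (fun x => x * g)
      (Measure.haarMeasure (⊤ : TopologicalSpace.PositiveCompacts K))) :=
    Measure.isProbabilityMeasure_map (measurable_mul_const g).aemeasurable
  have h2 : (Measure.map (fun x => x * g)
      (Measure.haarMeasure (⊤ : TopologicalSpace.PositiveCompacts K))).IsHaarMeasure :=
    inferInstance
  exact Measure.isHaarMeasure_eq_of_isProbabilityMeasure _ _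

end Pool.Agent.Helper25.PT
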