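import Mathlib

/-! Module PT-Var -/

set_option autoImplicit false
set_option linter.all false

namespace Pool.Agent.Helper25.PT

/-- the average of `g` over the functions with value `l` at `i` -/
noncomputable def cav {ι D : Type} [Fintype ι] [DecidableEq ι] [Fintype D] (g : (ι → D) → ℝ)
    (i : ι) (l : D) : ℝ :=
  (∑ δ : ι → D, g (Function.update δ i l)) / Fintype.card (ι → D)

section aux

variable {ι D : Type} [Fintype ι] [DecidableEq ι] [Fintype D]

lemma var_sum_update (φ : (ι → D) → ℝ) (i : ι) :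
    ∑ l, ∑ δ : ι → D, φ (Function.update δ i l) = Fintype.card D * ∑ δ, φ δ := by
  have h1 : ∑ l, ∑ δ : ι → D, φ (Function.update δ i l) =
      ∑ p : D × (ι → D), φ (Function.update p.2 i p.1) := by
    rw [Fintype.sum_prod_type]
  have h2 : ∑ p : D × (ι → D), φ (Function.update p.2 i p.1) = ∑ p : D × (ι → D), φ p.2 := by
    refine Fintype.sum_equiv (Function.Involutive.toPerm
      (fun p : D × (ι → D) => (p.2 i, Function.update p.2 i p.1)) ?_) _ _ ?_
    · intro p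
      simp
    · intro p
      rfl
  rw [h1, h2, Fintype.sum_prod_type]
  simp

lemma var_card_mul_cav (hN : (Fintype.card (ι → D) : ℝ) ≠ 0) (g : (ι → D) → ℝ) (i : ι) (l : D) :
    (Fintype.card (ι → D) : ℝ) * cav g i l = ∑ δ : ι → D, g (Function.update δ i l) := by
  unfold cav
  field_simp

lemma var_sum_mul (hN : (Fintype.card (ι → D) : ℝ) ≠ 0) (g : (ι → D) → ℝ) (i : ι) (u : D → ℝ) :
    (Fintype.card D : ℝ) * ∑ δ : ι → D, g δ * u (δ i) =
      Fintype.card (ι → D) * ∑ l, cav g i l * u l := by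
  rw [← var_sum_update (fun δ => g δ * u (δ i)) i, Finset.mul_sum]
  refine Finset.sum_congr rfl fun l _ => ?_
  rw [← mul_assoc, var_card_mul_cav hN, Finset.sum_mul]
  refine Finset.sum_congr rfl fun δ _ => ?_
  simp

lemma var_sum_coord (i : ι) (u : D → ℝ) :
    (Fintype.card D : ℝ) * ∑ δ : ι → D, u (δ i) =
      Fintype.card (ι → D) * ∑ l, u l := by
  rw [← var_sum_update (fun δ : ι → D => u (δ i)) i, Finset.mul_sum]
  refine Finset.sum_congr rfl fun l _ => ?_
  simp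

lemma var_sum_pair {i j : ι} (hij : i ≠ j) (u v : D → ℝ) :
    (Fintype.card D : ℝ) * ∑ δ : ι → D, u (δ i) * v (δ j) =
      (∑ l, u l) * ∑ δ : ι → D, v (δ j) := by
  rw [← var_sum_update (fun δ : ι → D => u (δ i) * v (δ j)) i, Finset.sum_mul]
  refine Finset.sum_congr rfl fun l _ => ?_
  rw [Finset.mul_sum]
  refine Finset.sum_congr rfl fun δ _ => ?_
  simp [Function.update_of_ne hij.symm]

end aux

/-- PT-Var. The level one inequality. -/
theorem var_ineq {ι D : Type} [Fintype ι] [DecidableEq ι] [Fintype D] (g : (ι → D) → ℝ) (l0 : D) :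
    ∑ i, ∑ l, (cav g i l - cav g i l0) ^ 2 ≤
      ((Fintype.card D : ℝ) + 1) * Fintype.card D *
        ((∑ δ : ι → D, g δ ^ 2) / Fintype.card (ι → D)) := by
  haveI : Nonempty D := ⟨l0⟩
  obtain ⟨n, hn⟩ : ∃ n : ℝ, n = Fintype.card D := ⟨_, rfl⟩
  obtain ⟨N, hN⟩ : ∃ N : ℝ, N = Fintype.card (ι → D) := ⟨_, rfl⟩
  have hn0 : 0 < n := by
    rw [hn]
    exact_mod_cast Fintype.card_pos
  have hN0 : 0 < N := by
    rw [hN]
    exact_mod_cast Fintype.card_pos
  have hNne : (Fintype.card (ι → D) : ℝ) ≠ 0 := by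
    rw [← hN]
    exact hN0.ne'
  obtain ⟨m, hm⟩ : ∃ m : ℝ, m = (∑ δ : ι → D, g δ) / N := ⟨_, rfl⟩
  have hm' : ∑ δ : ι → D, g δ = N * m := by
    rw [hm]
    field_simp
  obtain ⟨c, hc⟩ : ∃ c : ι → D → ℝ, ∀ i l, c i l = cav g i l - m := ⟨_, fun _ _ => rfl⟩
  have hc0 : ∀ i, ∑ l, c i l = 0 := by
    intro i
    have h1 := var_sum_mul hNne g i (fun _ => 1)
    simp only [mul_one] at h1
    rw [← hn, ← hN, hm'] at h1
    have h2 : ∑ l, cav g i l = n * m := by
      have : N * ∑ l, cav g i l = N * (n * m) := by rw [← h1]; ring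
      exact mul_left_cancel₀ hN0.ne' this
    simp only [hc]
    rw [Finset.sum_sub_distrib, h2]
    simp [hn]
  -- the sums of the products
  have hS1 : ∀ i, ∑ δ : ι → D, c i (δ i) = 0 := by
    intro i
    have h1 := var_sum_coord (ι := ι) i (c i)
    rw [hc0 i, mul_zero, ← hn] at h1
    exact (mul_eq_zero.1 h1).resolve_left hn0.ne'
  have hS2 : ∀ i j, i ≠ j → ∑ δ : ι → D, c i (δ i) * c j (δ j) = 0 := by
    intro i j hij
    have h1 := var_sum_pair (ι := ι) hij (c i) (c j)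
    rw [hc0 i, zero_mul, ← hn] at h1
    exact (mul_eq_zero.1 h1).resolve_left hn0.ne'
  have hS3 : ∀ i, n * ∑ δ : ι → D, c i (δ i) * c i (δ i) = N * ∑ l, c i l ^ 2 := by
    intro i
    have h1 := var_sum_coord (ι := ι) i (fun l => c i l * c i l)
    rw [← hn, ← hN] at h1
    rw [h1]
    congr 1
    exact Finset.sum_congr rfl fun l _ => (sq _).symm
  have hS4 : ∀ i, n * ∑ δ : ι → D, g δ * c i (δ i) = N * ∑ l, c i l ^ 2 := by
    intro i
    have h1 := var_sum_mul hNne g i (c i)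
    rw [← hn, ← hN] at h1
    rw [h1]
    congr 1
    have : ∀ l, cav g i l * c i l = c i l ^ 2 + m * c i l := by
      intro l
      have := hc i l
      have h2 : cav g i l = c i l + m := by rw [this]; ring
      rw [h2]
      ring
    simp only [this]
    rw [Finset.sum_add_distrib, ← Finset.mul_sum, hc0 i, mul_zero, add_zero]
  have hS34 : ∀ i, ∑ δ : ι → D, g δ * c i (δ i) = ∑ δ : ι → D, c i (δ i) * c i (δ i) := by
    intro i
    exact mul_left_cancel₀ hn0.ne' ((hS4 i).trans (hS3 i).symm)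
  have hsq : 0 ≤ ∑ δ : ι → D, (g δ - m - ∑ i, c i (δ i)) ^ 2 :=
    Finset.sum_nonneg fun _ _ => sq_nonneg _
  have hexp : ∑ δ : ι → D, (g δ - m - ∑ i, c i (δ i)) ^ 2 =
      ∑ δ : ι → D, g δ ^ 2 - N * m ^ 2 - ∑ i, ∑ δ : ι → D, c i (δ i) * c i (δ i) := by
    have h1 : ∀ δ : ι → D, (g δ - m - ∑ i, c i (δ i)) ^ 2 =
        g δ ^ 2 - 2 * m * g δ + m ^ 2 - 2 * ∑ i, g δ * c i (δ i) + 2 * m * ∑ i, c i (δ i) +
          ∑ i, ∑ j, c i (δ i) * c j (δ j) := by
      intro δ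
      have h2 : ∑ i, ∑ j, c i (δ i) * c j (δ j) = (∑ i, c i (δ i)) * ∑ i, c i (δ i) := by
        rw [Finset.sum_mul_sum]
      rw [h2, ← Finset.mul_sum]
      ring
    simp only [h1]
    rw [Finset.sum_add_distrib, Finset.sum_add_distrib, Finset.sum_sub_distrib,
      Finset.sum_add_distrib, Finset.sum_sub_distrib]
    have e1 : ∑ δ : ι → D, 2 * m * g δ = 2 * m * (N * m) := by
      rw [← Finset.mul_sum, hm']
    have e2 : ∑ _δ : ι → D, m ^ 2 = N * m ^ 2 := by
      rw [Finset.sum_const, nsmul_eq_mul, hN]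
      rfl
    have e3 : ∑ δ : ι → D, 2 * ∑ i, g δ * c i (δ i) =
        2 * ∑ i, ∑ δ : ι → D, c i (δ i) * c i (δ i) := by
      rw [← Finset.mul_sum, Finset.sum_comm]
      congr 1
      exact Finset.sum_congr rfl fun i _ => hS34 i
    have e4 : ∑ δ : ι → D, 2 * m * ∑ i, c i (δ i) = 0 := by
      rw [← Finset.mul_sum, Finset.sum_comm, Finset.sum_eq_zero fun i _ => hS1 i, mul_zero]
    have e5 : ∑ δ : ι → D, ∑ i, ∑ j, c i (δ i) * c j (δ j) =
        ∑ i, ∑ δ : ι → D, c i (δ i) * c i (δ i) := by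
      rw [Finset.sum_comm]
      refine Finset.sum_congr rfl fun i _ => ?_
      rw [Finset.sum_comm]
      rw [Finset.sum_eq_single i]
      · intro j _ hj
        exact hS2 i j hj.symm
      · intro h
        exact (h (Finset.mem_univ i)).elim
    rw [e1, e2, e3, e4, e5]
    ring
  rw [hexp] at hsq
  have hmain : ∑ i, ∑ l, c i l ^ 2 ≤ n * ((∑ δ : ι → D, g δ ^ 2) / N) := by
    have h1 : N * ∑ i, ∑ l, c i l ^ 2 = n * ∑ i, ∑ δ : ι → D, c i (δ i) * c i (δ i) := by
      rw [Finset.mul_sum, Finset.mul_sum]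
      exact Finset.sum_congr rfl fun i _ => (hS3 i).symm
    have h2 : ∑ i, ∑ δ : ι → D, c i (δ i) * c i (δ i) ≤ ∑ δ : ι → D, g δ ^ 2 := by
      have : 0 ≤ N * m ^ 2 := mul_nonneg hN0.le (sq_nonneg m)
      linarith
    have h3 : N * ∑ i, ∑ l, c i l ^ 2 ≤ n * ∑ δ : ι → D, g δ ^ 2 := by
      rw [h1]
      exact mul_le_mul_of_nonneg_left h2 hn0.le
    have h4 : n * ((∑ δ : ι → D, g δ ^ 2) / N) = (n * ∑ δ : ι → D, g δ ^ 2) / N := by ring
    rw [h4, le_div_iff₀ hN0, mul_comm]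
    exact h3
  have hrow : ∀ i, ∑ l, (cav g i l - cav g i l0) ^ 2 ≤ (n + 1) * ∑ l, c i l ^ 2 := by
    intro i
    have h1 : ∀ l, (cav g i l - cav g i l0) ^ 2 =
        c i l ^ 2 - 2 * c i l0 * c i l + c i l0 ^ 2 := by
      intro l
      rw [hc i l, hc i l0]
      ring
    simp only [h1]
    rw [Finset.sum_add_distrib, Finset.sum_sub_distrib, ← Finset.mul_sum, hc0 i, mul_zero, sub_zero,
      Finset.sum_const, nsmul_eq_mul]
    have h2 : ((Finset.univ : Finset D).card : ℝ) = n := by rw [hn]; rfl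
    rw [h2]
    have h3 : c i l0 ^ 2 ≤ ∑ l, c i l ^ 2 :=
      Finset.single_le_sum (f := fun l => c i l ^ 2) (fun l _ => sq_nonneg _) (Finset.mem_univ l0)
    nlinarith
  rw [← hn, ← hN]
  calc ∑ i, ∑ l, (cav g i l - cav g i l0) ^ 2 ≤ ∑ i, (n + 1) * ∑ l, c i l ^ 2 :=
        Finset.sum_le_sum fun i _ => hrow i
    _ = (n + 1) * ∑ i, ∑ l, c i l ^ 2 := by rw [Finset.mul_sum]
    _ ≤ (n + 1) * (n * ((∑ δ : ι → D, g δ ^ 2) / N)) :=
        mul_le_mul_of_nonneg_left hmain (by linarith)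
    _ = (n + 1) * n * ((∑ δ : ι → D, g δ ^ 2) / N) := by ring

end Pool.Agent.Helper25.PT
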