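import Pool.Agent.Helper25.PT.Defs
import Pool.Agent.Helper25.PT.Var

/-! Module PT-Infl -/

set_option autoImplicit false
set_option linter.all false

namespace Pool.Agent.Helper25.PT

open Classical in
/-- `Pv X ψ f z i v p` is the probability, for independent uniform `δ j ∈ Fin (r + 1)`, that `f`
takes the value `v` at the point with coordinates `ψ (δ j) • z j` for `j ≠ i` and `p` at `i` -/
noncomputable def Pv {a : ℕ} (X : Act a) {F V : Type} [Fintype F] {r : ℕ}
    (ψ : Fin (r + 1) → X.K) (f : (F → Sp a) → V) (z : F → Sp a) (i : F) (v : V) (p : Sp a) : ℝ :=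
  (∑ δ : F → Fin (r + 1),
    if f (Function.update (fun j => ψ (δ j) • z j) i p) = v then (1 : ℝ) else 0) /
      Fintype.card (F → Fin (r + 1))

/-- the influence of the coordinate `i` at the point `z` -/
noncomputable def Infl {a : ℕ} (X : Act a) {F V : Type} [Fintype F] [Fintype V] {r : ℕ}
    (ψ : Fin (r + 1) → X.K) (f : (F → Sp a) → V) (z : F → Sp a) (i : F) : ℝ :=
  ∑ v, ∑ l, (Pv X ψ f z i v (ψ l • z i) - Pv X ψ f z i v (z i)) ^ 2

section

variable {a : ℕ} (X : Act a) {F V : Type} [Fintype F] {r : ℕ} (ψ : Fin (r + 1) → X.K)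
  (f : (F → Sp a) → V)

theorem Pv_congr {z z' : F → Sp a} {i : F} (h : ∀ j, j ≠ i → z j = z' j) (v : V) (p : Sp a) :
    Pv X ψ f z i v p = Pv X ψ f z' i v p := by
  classical
  unfold Pv
  congr 1
  refine Finset.sum_congr rfl fun δ _ => ?_
  have : Function.update (fun j => ψ (δ j) • z j) i p =
      Function.update (fun j => ψ (δ j) • z' j) i p := by
    funext j
    by_cases hj : j = i
    · subst hj
      simp
    · rw [Function.update_of_ne hj, Function.update_of_ne hj, h j hj]
  rw [this]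

theorem Pv_nonneg (z : F → Sp a) (i : F) (v : V) (p : Sp a) : 0 ≤ Pv X ψ f z i v p := by
  unfold Pv
  refine div_nonneg (Finset.sum_nonneg fun δ _ => ?_) (Nat.cast_nonneg _)
  split_ifs
  · exact zero_le_one
  · exact le_rfl

theorem Pv_sum [Fintype V] (z : F → Sp a) (i : F) (p : Sp a) : ∑ v, Pv X ψ f z i v p = 1 := by
  classical
  unfold Pv
  rw [← Finset.sum_div, Finset.sum_comm]
  have h1 : ∀ δ : F → Fin (r + 1), ∑ v : V,
      (if f (Function.update (fun j => ψ (δ j) • z j) i p) = v then (1 : ℝ) else 0) = 1 := by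
    intro δ
    simp
  have h2 : (Fintype.card (F → Fin (r + 1)) : ℝ) ≠ 0 := by
    have : 0 < Fintype.card (F → Fin (r + 1)) := Fintype.card_pos
    exact_mod_cast this.ne'
  rw [div_eq_one_iff_eq (by convert h2)]
  convert (Finset.sum_congr rfl fun δ _ => h1 δ).trans ?_ using 1
  simp

theorem Pv_pos (z : F → Sp a) (i : F) (v : V) (p : Sp a) (h : 0 < Pv X ψ f z i v p) :
    ∃ u : F → Sp a, u i = p ∧ (∀ j, j ≠ i → ∃ l, u j = ψ l • z j) ∧ f u = v := by
  classical
  by_contra hcon
  push Not at hcon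
  apply h.ne'
  unfold Pv
  rw [Finset.sum_eq_zero, zero_div]
  intro δ _
  rw [if_neg]
  intro hf
  refine hcon _ (Function.update_self _ _ _) ?_ hf
  intro j hj
  exact ⟨δ j, Function.update_of_ne hj _ _⟩

theorem Infl_nonneg [Fintype V] (z : F → Sp a) (i : F) : 0 ≤ Infl X ψ f z i :=
  Finset.sum_nonneg fun _ _ => Finset.sum_nonneg fun _ _ => sq_nonneg _

/-- PT-Infl. Main statement: the sum of the influences is bounded. -/
theorem Infl_sum [Fintype V] (h0 : ψ 0 = 1) (z : F → Sp a) :
    ∑ i, Infl X ψ f z i ≤ ((r : ℝ) + 2) * (r + 1) := by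
  classical
  obtain ⟨g, hg⟩ : ∃ g : V → (F → Fin (r + 1)) → ℝ, ∀ v δ,
      g v δ = if f (fun j => ψ (δ j) • z j) = v then (1 : ℝ) else 0 := ⟨_, fun _ _ => rfl⟩
  have hcav : ∀ v i l, cav (g v) i l = Pv X ψ f z i v (ψ l • z i) := by
    intro v i l
    unfold cav Pv
    have h1 : ∀ δ : F → Fin (r + 1), (fun j => ψ (Function.update δ i l j) • z j) =
        Function.update (fun j => ψ (δ j) • z j) i (ψ l • z i) := by
      intro δ
      funext j
      by_cases hj : j = i
      · subst hj
        simp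
      · rw [Function.update_of_ne hj, Function.update_of_ne hj]
    simp only [hg, h1]
  have hN : (Fintype.card (F → Fin (r + 1)) : ℝ) ≠ 0 := by
    have : 0 < Fintype.card (F → Fin (r + 1)) := Fintype.card_pos
    exact_mod_cast this.ne'
  have h1 : ∑ i, Infl X ψ f z i = ∑ v, ∑ i, ∑ l, (cav (g v) i l - cav (g v) i 0) ^ 2 := by
    unfold Infl
    rw [Finset.sum_comm]
    refine Finset.sum_congr rfl fun v _ => Finset.sum_congr rfl fun i _ =>
      Finset.sum_congr rfl fun l _ => ?_
    rw [hcav, hcav, h0, one_smul]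
  rw [h1]
  have h2 : ∀ v, ∑ i, ∑ l, (cav (g v) i l - cav (g v) i 0) ^ 2 ≤
      ((r : ℝ) + 2) * (r + 1) * ((∑ δ : F → Fin (r + 1), g v δ ^ 2) /
        Fintype.card (F → Fin (r + 1))) := by
    intro v
    have := var_ineq (g v) 0
    rw [Fintype.card_fin] at this
    push_cast at this
    refine this.trans (le_of_eq ?_)
    ring
  refine (Finset.sum_le_sum fun v _ => h2 v).trans (le_of_eq ?_)
  rw [← Finset.mul_sum, ← Finset.sum_div, Finset.sum_comm]
  have h3 : ∀ δ : F → Fin (r + 1), ∑ v : V, g v δ ^ 2 = 1 := by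
    intro δ
    simp [hg]
  simp only [h3]
  rw [Finset.sum_const, nsmul_eq_mul, mul_one]
  have h4 : ((Finset.univ : Finset (F → Fin (r + 1))).card : ℝ) =
      Fintype.card (F → Fin (r + 1)) := rfl
  rw [h4, div_self hN, mul_one]

end

end Pool.Agent.Helper25.PT
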