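import Pool.Agent.Helper25.PT.Defs

/-! Module PT-Split -/

set_option autoImplicit false
set_option linter.all false

namespace Pool.Agent.Helper25.PT

/-- PT-Split-a. Splitting a Euclidean space. -/
theorem split (b c : ℕ) : ∃ e : (Eu b × Eu c) ≃ₗ[ℝ] Eu (b + c + 1),
    ∀ x y, ‖e (x, y)‖ ^ 2 = ‖x‖ ^ 2 + ‖y‖ ^ 2 := by
  have h : (b + 1) + (c + 1) = b + c + 1 + 1 := by omega
  let s : Fin (b + 1) ⊕ Fin (c + 1) ≃ Fin (b + c + 1 + 1) := finSumFinEquiv.trans (finCongr h)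
  let e0 : (Eu b × Eu c) ≃ₗ[ℝ] ((Fin (b + 1) → ℝ) × (Fin (c + 1) → ℝ)) :=
    (WithLp.linearEquiv 2 ℝ (Fin (b + 1) → ℝ)).prodCongr (WithLp.linearEquiv 2 ℝ (Fin (c + 1) → ℝ))
  let e1 : ((Fin (b + 1) → ℝ) × (Fin (c + 1) → ℝ)) ≃ₗ[ℝ] (Fin (b + 1) ⊕ Fin (c + 1) → ℝ) :=
    (LinearEquiv.sumArrowLequivProdArrow (Fin (b + 1)) (Fin (c + 1)) ℝ ℝ).symm
  let e2 : (Fin (b + 1) ⊕ Fin (c + 1) → ℝ) ≃ₗ[ℝ] (Fin (b + c + 1 + 1) → ℝ) :=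
    LinearEquiv.funCongrLeft ℝ ℝ s.symm
  let e3 : (Fin (b + c + 1 + 1) → ℝ) ≃ₗ[ℝ] Eu (b + c + 1) :=
    (WithLp.linearEquiv 2 ℝ (Fin (b + c + 1 + 1) → ℝ)).symm
  refine ⟨e0.trans (e1.trans (e2.trans e3)), fun x y => ?_⟩
  rw [EuclideanSpace.norm_sq_eq, EuclideanSpace.norm_sq_eq, EuclideanSpace.norm_sq_eq]
  rw [← Equiv.sum_comp s, Fintype.sum_sum_type]
  congr 1
  · refine Finset.sum_congr rfl fun i _ => ?_
    have : (e0.trans (e1.trans (e2.trans e3)) (x, y)) (s (Sum.inl i)) = x i := by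
      show (Sum.elim (fun i => x i) (fun j => y j)) (s.symm (s (Sum.inl i))) = x i
      rw [Equiv.symm_apply_apply]; rfl
    rw [this]
  · refine Finset.sum_congr rfl fun i _ => ?_
    have : (e0.trans (e1.trans (e2.trans e3)) (x, y)) (s (Sum.inr i)) = y i := by
      show (Sum.elim (fun i => x i) (fun j => y j)) (s.symm (s (Sum.inr i))) = y i
      rw [Equiv.symm_apply_apply]; rfl
    rw [this]

/-- normalisation -/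
theorem exists_nrm (m : ℕ) : ∃ nrm : Eu m → Sp m, ∀ x, x ≠ 0 → (nrm x : Eu m) = ‖x‖⁻¹ • x := by
  classical
  obtain ⟨p⟩ : Nonempty (Sp m) :=
    (NormedSpace.sphere_nonempty (x := (0 : Eu m)) (r := 1)).2 zero_le_one |>.to_subtype
  refine ⟨fun x => if hx : x ≠ 0 then ⟨‖x‖⁻¹ • x, ?_⟩ else p, fun x hx => ?_⟩
  · rw [mem_sphere_zero_iff_norm, norm_smul, norm_inv, norm_norm]
    exact inv_mul_cancel₀ (norm_ne_zero_iff.2 hx)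
  · simp [hx]

/-- a vector divided by its norm -/
noncomputable def nrm {m : ℕ} (x : Eu m) : Sp m := (exists_nrm m).choose x

theorem nrm_eq {m : ℕ} {x : Eu m} (hx : x ≠ 0) : (nrm x : Eu m) = ‖x‖⁻¹ • x :=
  (exists_nrm m).choose_spec x hx

/-- PT-Split-b. -/
theorem nrm_add {m : ℕ} {x y : Eu m} {c : ℝ} (hc : 0 < c) (hx : c ≤ ‖x‖) (hy : c ≤ ‖y‖) :
    ‖(nrm x : Eu m) + (nrm y : Eu m)‖ ≤ 2 * ‖x + y‖ / c := by
  have hx0 : 0 < ‖x‖ := lt_of_lt_of_le hc hx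
  have hy0 : 0 < ‖y‖ := lt_of_lt_of_le hc hy
  rw [nrm_eq (norm_pos_iff.1 hx0), nrm_eq (norm_pos_iff.1 hy0)]
  have h1 : ‖x‖⁻¹ • x + ‖y‖⁻¹ • y = ‖x‖⁻¹ • (x + y) + (‖y‖⁻¹ - ‖x‖⁻¹) • y := by
    rw [smul_add, sub_smul]; abel
  rw [h1]
  refine (norm_add_le _ _).trans ?_
  rw [norm_smul, norm_smul, norm_inv, norm_norm]
  have h2 : ‖(‖y‖⁻¹ - ‖x‖⁻¹ : ℝ)‖ * ‖y‖ = |‖x‖ - ‖y‖| / ‖x‖ := by
    have : (‖y‖⁻¹ - ‖x‖⁻¹ : ℝ) = (‖x‖ - ‖y‖) / (‖x‖ * ‖y‖) := by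
      field_simp
    rw [this, Real.norm_eq_abs, abs_div, abs_mul, abs_norm, abs_norm]
    field_simp
  rw [h2]
  have h3 : |‖x‖ - ‖y‖| ≤ ‖x + y‖ := by
    have := abs_norm_sub_norm_le x (-y)
    rwa [norm_neg, sub_neg_eq_add] at this
  have h4 : ‖x‖⁻¹ * ‖x + y‖ ≤ ‖x + y‖ / c := by
    rw [inv_mul_eq_div]
    exact div_le_div_of_nonneg_left (norm_nonneg _) hc hx
  have h5 : |‖x‖ - ‖y‖| / ‖x‖ ≤ ‖x + y‖ / c :=
    div_le_div₀ (norm_nonneg _) h3 hc hx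
  calc _ ≤ ‖x + y‖ / c + ‖x + y‖ / c := add_le_add h4 h5
    _ = 2 * ‖x + y‖ / c := by ring

end Pool.Agent.Helper25.PT
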