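import Pool.Agent.Helper25.PT.Seq
import Pool.Agent.Helper25.PT.Split

/-! Module PT-Join -/

set_option autoImplicit false
set_option linter.all false

namespace Pool.Agent.Helper25.PT

open Pool.Agent.Helper25.PH (IsHom HomTo)

private theorem join_neg_left {m : ℕ} {ε : ℝ} (hε : 0 < ε) (x : Sp m) : Bor m ε (-x) x := by
  unfold Bor
  rw [coe_neg_sphere]
  simpa using hε

private theorem join_neg_right {m : ℕ} {ε : ℝ} (hε : 0 < ε) (x : Sp m) : Bor m ε x (-x) := by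
  unfold Bor
  rw [coe_neg_sphere]
  simpa using hε

private theorem join_bor_nrm {m : ℕ} {ε c δ : ℝ} (hc : 0 < c) (hδ : 2 * δ ≤ ε * c) {x y : Eu m}
    (hx : c ^ 2 ≤ ‖x‖ ^ 2) (hy : c ^ 2 ≤ ‖y‖ ^ 2) (hxy : ‖x + y‖ < δ) :
    Bor m ε (nrm x) (nrm y) := by
  have h1 : c ≤ ‖x‖ := by
    by_contra hcon
    push Not at hcon
    have := norm_nonneg x
    nlinarith
  have h2 : c ≤ ‖y‖ := by
    by_contra hcon
    push Not at hcon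
    have := norm_nonneg y
    nlinarith
  unfold Bor
  refine lt_of_le_of_lt (nrm_add hc h1 h2) ?_
  rw [div_lt_iff₀ hc]
  linarith

private theorem join_sq_sub {m : ℕ} {δ : ℝ} {x y : Eu m} (hx : ‖x‖ ^ 2 ≤ 1) (hy : ‖y‖ ^ 2 ≤ 1)
    (hxy : ‖x + y‖ < δ) : ‖x‖ ^ 2 ≤ ‖y‖ ^ 2 + 2 * δ := by
  have hx1 : ‖x‖ ≤ 1 := by
    by_contra h
    push Not at h
    nlinarith
  have hy1 : ‖y‖ ≤ 1 := by
    by_contra h
    push Not at h
    nlinarith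
  have h1 : ‖x‖ ≤ ‖x + y‖ + ‖y‖ := by
    calc ‖x‖ = ‖(x + y) - y‖ := by simp
      _ ≤ ‖x + y‖ + ‖y‖ := norm_sub_le _ _
  have h2 : 0 ≤ ‖x‖ := norm_nonneg x
  have h3 : 0 ≤ ‖y‖ := norm_nonneg y
  have h4 : 0 ≤ ‖x + y‖ := norm_nonneg _
  have h5 : ‖x‖ - ‖y‖ ≤ ‖x + y‖ := by linarith
  have h6 : ‖x‖ ^ 2 - ‖y‖ ^ 2 = (‖x‖ - ‖y‖) * (‖x‖ + ‖y‖) := by ring
  have h7 : (‖x‖ - ‖y‖) * (‖x‖ + ‖y‖) ≤ ‖x + y‖ * (‖x‖ + ‖y‖) :=
    mul_le_mul_of_nonneg_right h5 (by linarith)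
  have h8 : ‖x + y‖ * (‖x‖ + ‖y‖) ≤ ‖x + y‖ * 2 :=
    mul_le_mul_of_nonneg_left (by linarith) h4
  linarith

/-- the main case analysis -/
private theorem join_main {V : Type} {E : V → V → Prop} {a : ℕ} {ε c δ : ℝ}
    (hε : 0 < ε) {N : ℕ} (hN : 1 ≤ N) {G : ℕ → Sp a × Sp a → V} {g' : Sp a × Sp a → V}
    (hx : ∀ x y y', G 0 (x, y) = G 0 (x, y'))
    (hGN : ∀ s, N ≤ s → G s = g')
    (hy : ∀ x x' y, g' (x, y) = g' (x', y))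
    (hG : ∀ s t, s ≤ t + 1 → t ≤ s + 1 → St (Nu a ε) E (G s) (G t))
    (hc : c = 1 / (N + 1)) (hδ1 : δ ≤ c / 4) (hδ : 2 * δ ≤ ε * c)
    {u v u' v' : Eu a} (h1 : ‖u‖ ^ 2 + ‖v‖ ^ 2 = 1) (h2 : ‖u'‖ ^ 2 + ‖v'‖ ^ 2 = 1)
    (hu : ‖u + u'‖ < δ) (hv : ‖v + v'‖ < δ) :
    E (G ⌊(N + 1) * ‖v‖ ^ 2⌋₊ (nrm u, nrm v)) (G ⌊(N + 1) * ‖v'‖ ^ 2⌋₊ (nrm u', nrm v')) := by
  have hN1 : (0 : ℝ) < N + 1 := by positivity
  have hN' : (1 : ℝ) ≤ N := by exact_mod_cast hN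
  have hc0 : 0 < c := by rw [hc]; positivity
  have hcN : (N + 1) * c = 1 := by rw [hc]; field_simp
  have hc2 : c ≤ 1 / 2 := by
    rw [hc]
    exact one_div_le_one_div_of_le (by norm_num) (by linarith)
  have hδ0 : 0 < δ := lt_of_le_of_lt (norm_nonneg _) hu
  have nu := sq_nonneg ‖u‖
  have nv := sq_nonneg ‖v‖
  have nu' := sq_nonneg ‖u'‖
  have nv' := sq_nonneg ‖v'‖
  have hcc : c ^ 2 ≤ c / 2 := by nlinarith
  have hcc4 : c ^ 2 ≤ 1 / 4 := by nlinarith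
  have d1 : ‖v‖ ^ 2 ≤ ‖v'‖ ^ 2 + 2 * δ := join_sq_sub (by linarith) (by linarith) hv
  have d2 : ‖v'‖ ^ 2 ≤ ‖v‖ ^ 2 + 2 * δ :=
    join_sq_sub (by linarith) (by linarith) ((add_comm v v') ▸ hv)
  set s := ⌊(N + 1) * ‖v‖ ^ 2⌋₊ with hs
  set s' := ⌊(N + 1) * ‖v'‖ ^ 2⌋₊ with hs'
  have p1 : 0 ≤ (N + 1) * ‖v‖ ^ 2 := by positivity
  have p2 : 0 ≤ (N + 1) * ‖v'‖ ^ 2 := by positivity
  have f1 : (s : ℝ) ≤ (N + 1) * ‖v‖ ^ 2 := Nat.floor_le p1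
  have f2 : (N + 1) * ‖v‖ ^ 2 < s + 1 := Nat.lt_floor_add_one _
  have f3 : (s' : ℝ) ≤ (N + 1) * ‖v'‖ ^ 2 := Nat.floor_le p2
  have f4 : (N + 1) * ‖v'‖ ^ 2 < s' + 1 := Nat.lt_floor_add_one _
  have e1 : (N + 1) * ‖v‖ ^ 2 ≤ (N + 1) * ‖v'‖ ^ 2 + 1 / 2 := by
    have : (N + 1) * ‖v‖ ^ 2 ≤ (N + 1) * (‖v'‖ ^ 2 + 2 * δ) :=
      mul_le_mul_of_nonneg_left d1 hN1.le
    have h : (N + 1) * δ ≤ (N + 1) * (c / 4) := mul_le_mul_of_nonneg_left hδ1 hN1.le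
    linarith
  have e2 : (N + 1) * ‖v'‖ ^ 2 ≤ (N + 1) * ‖v‖ ^ 2 + 1 / 2 := by
    have : (N + 1) * ‖v'‖ ^ 2 ≤ (N + 1) * (‖v‖ ^ 2 + 2 * δ) :=
      mul_le_mul_of_nonneg_left d2 hN1.le
    have h : (N + 1) * δ ≤ (N + 1) * (c / 4) := mul_le_mul_of_nonneg_left hδ1 hN1.le
    linarith
  have k1 : s ≤ s' + 1 := by
    have : (s : ℝ) < s' + 2 := by linarith
    have : s < s' + 2 := by exact_mod_cast this
    omega
  have k2 : s' ≤ s + 1 := by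
    have : (s' : ℝ) < s + 2 := by linarith
    have : s' < s + 2 := by exact_mod_cast this
    omega
  have st := hG s s' k1 k2
  -- lower bounds
  have lowU : ∀ {w z : Eu a}, ‖w‖ ^ 2 + ‖z‖ ^ 2 = 1 → (N + 1) * ‖z‖ ^ 2 ≤ 3 / 2 →
      c ^ 2 ≤ ‖w‖ ^ 2 := by
    intro w z h hz
    have : ‖z‖ ^ 2 ≤ 3 / 4 := by
      have := sq_nonneg ‖z‖
      nlinarith
    linarith
  have lowV : ∀ {z : Eu a}, N - 1 / 2 ≤ (N + 1) * ‖z‖ ^ 2 → c ^ 2 ≤ ‖z‖ ^ 2 := by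
    intro z hz
    have : 1 / 4 ≤ ‖z‖ ^ 2 := by
      by_contra hcon
      push Not at hcon
      have : (N + 1) * ‖z‖ ^ 2 < (N + 1) * (1 / 4) := mul_lt_mul_of_pos_left hcon hN1
      linarith
    linarith
  by_cases c1 : s = 0
  · have a1 : Bor a ε (nrm u) (nrm u') := by
      refine join_bor_nrm hc0 hδ (lowU h1 ?_) (lowU h2 ?_) hu
      · rw [c1] at f2; norm_num at f2; linarith
      · rw [c1] at f2; norm_num at f2; linarith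
    have := st (nrm u, -nrm v') (nrm u', nrm v') ⟨a1, join_neg_left hε _⟩
    rw [c1] at this ⊢
    rwa [hx (nrm u) (nrm v) (-nrm v')]
  by_cases c2 : s' = 0
  · have a1 : Bor a ε (nrm u) (nrm u') := by
      refine join_bor_nrm hc0 hδ (lowU h1 ?_) (lowU h2 ?_) hu
      · rw [c2] at f4; norm_num at f4; linarith
      · rw [c2] at f4; norm_num at f4; linarith
    have := st (nrm u, nrm v) (nrm u', -nrm v) ⟨a1, join_neg_right hε _⟩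
    rw [c2] at this ⊢
    rwa [hx (nrm u') (nrm v') (-nrm v)]
  by_cases c3 : N ≤ s
  · have q : (N : ℝ) ≤ s := by exact_mod_cast c3
    have a1 : Bor a ε (nrm v) (nrm v') := by
      refine join_bor_nrm hc0 hδ (lowV ?_) (lowV ?_) hv <;> linarith
    have := st (-nrm u', nrm v) (nrm u', nrm v') ⟨join_neg_left hε _, a1⟩
    rw [hGN s c3] at this ⊢
    rwa [hy (nrm u) (-nrm u') (nrm v)]
  by_cases c4 : N ≤ s'
  · have q : (N : ℝ) ≤ s' := by exact_mod_cast c4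
    have a1 : Bor a ε (nrm v) (nrm v') := by
      refine join_bor_nrm hc0 hδ (lowV ?_) (lowV ?_) hv <;> linarith
    have := st (nrm u, nrm v) (-nrm u, nrm v') ⟨join_neg_right hε _, a1⟩
    rw [hGN s' c4] at this ⊢
    rwa [hy (nrm u') (-nrm u) (nrm v')]
  -- middle
  have mid : ∀ {w z : Eu a} {t : ℕ}, ‖w‖ ^ 2 + ‖z‖ ^ 2 = 1 → (t : ℝ) ≤ (N + 1) * ‖z‖ ^ 2 →
      (N + 1) * ‖z‖ ^ 2 < t + 1 → t ≠ 0 → ¬ N ≤ t → c ^ 2 ≤ ‖w‖ ^ 2 ∧ c ^ 2 ≤ ‖z‖ ^ 2 := by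
    intro w z t h g1 g2 g3 g4
    have t1 : (1 : ℝ) ≤ t := by exact_mod_cast (Nat.one_le_iff_ne_zero.mpr g3)
    have t2 : (t : ℝ) + 1 ≤ N := by
      have : t + 1 ≤ N := by omega
      exact_mod_cast this
    have z1 : c ≤ ‖z‖ ^ 2 := by
      by_contra hcon
      push Not at hcon
      have : (N + 1) * ‖z‖ ^ 2 < (N + 1) * c := mul_lt_mul_of_pos_left hcon hN1
      linarith
    have z2 : ‖z‖ ^ 2 ≤ 1 - c := by
      by_contra hcon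
      push Not at hcon
      have : (N + 1) * (1 - c) < (N + 1) * ‖z‖ ^ 2 := mul_lt_mul_of_pos_left hcon hN1
      have e : (N + 1) * (1 - c) = N := by
        have : (N + 1) * (1 - c) = N + 1 - (N + 1) * c := by ring
        rw [this, hcN]; ring
      linarith
    constructor <;> linarith
  obtain ⟨m1, m2⟩ := mid h1 f1 f2 c1 c3
  obtain ⟨m3, m4⟩ := mid h2 f3 f4 c2 c4
  exact st (nrm u, nrm v) (nrm u', nrm v')
    ⟨join_bor_nrm hc0 hδ m1 m3 hu, join_bor_nrm hc0 hδ m2 m4 hv⟩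

/-- PT-Join. A homotopy from a map that depends only on the first variable to a map that depends
only on the second variable gives a homomorphism from the Borsuk graph of the join. -/
theorem join_hom {V : Type} {E : V → V → Prop} (hE : ∀ u v, E u v → E v u) {a : ℕ} {ε : ℝ}
    (hε : 0 < ε) {g g' : Sp a × Sp a → V} (h : Ho (Nu a ε) E g g') (hg : St (Nu a ε) E g g)
    (hx : ∀ x y y', g (x, y) = g (x, y')) (hy : ∀ x x' y, g' (x, y) = g' (x', y)) :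
    ∃ δ : ℝ, 0 < δ ∧ HomTo (Bor (a + a + 1) δ) E := by
  obtain ⟨N, G, hN, hG0, hGN, hG⟩ := ho_seq h hg
  obtain ⟨e, he⟩ := split a a
  have hN1 : (0 : ℝ) < (N : ℝ) + 1 := by positivity
  set c : ℝ := 1 / (N + 1) with hc
  have hc0 : 0 < c := by rw [hc]; positivity
  refine ⟨min (c / 4) (ε * c / 2), lt_min (by positivity) (by positivity),
    fun ξ => G ⌊((N : ℝ) + 1) * ‖(e.symm (ξ : Eu (a + a + 1))).2‖ ^ 2⌋₊
      (nrm (e.symm (ξ : Eu (a + a + 1))).1, nrm (e.symm (ξ : Eu (a + a + 1))).2), ?_⟩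
  intro ξ ξ' hξ
  unfold Bor at hξ
  have sq1 : ∀ η : Eu (a + a + 1), ‖(e.symm η).1‖ ^ 2 + ‖(e.symm η).2‖ ^ 2 = ‖η‖ ^ 2 := by
    intro η
    rw [← he, Prod.mk.eta, LinearEquiv.apply_symm_apply]
  have sph : ∀ η : Sp (a + a + 1), ‖(η : Eu (a + a + 1))‖ = 1 := fun η => by
    simpa using η.2
  have h1 := sq1 ξ
  have h2 := sq1 ξ'
  rw [sph, one_pow] at h1 h2
  have h3 := sq1 ((ξ : Eu (a + a + 1)) + ξ')
  rw [map_add, Prod.fst_add, Prod.snd_add] at h3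
  have n0 : 0 ≤ ‖(ξ : Eu (a + a + 1)) + ξ'‖ := norm_nonneg _
  have hu : ‖(e.symm (ξ : Eu (a + a + 1))).1 + (e.symm (ξ' : Eu (a + a + 1))).1‖ ≤
      ‖(ξ : Eu (a + a + 1)) + ξ'‖ := by
    refine abs_le_of_sq_le_sq' ?_ n0 |>.2
    have := sq_nonneg ‖(e.symm (ξ : Eu (a + a + 1))).2 + (e.symm (ξ' : Eu (a + a + 1))).2‖
    linarith
  have hv : ‖(e.symm (ξ : Eu (a + a + 1))).2 + (e.symm (ξ' : Eu (a + a + 1))).2‖ ≤
      ‖(ξ : Eu (a + a + 1)) + ξ'‖ := by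
    refine abs_le_of_sq_le_sq' ?_ n0 |>.2
    have := sq_nonneg ‖(e.symm (ξ : Eu (a + a + 1))).1 + (e.symm (ξ' : Eu (a + a + 1))).1‖
    linarith
  refine join_main hε hN (g' := g') (c := c) (δ := min (c / 4) (ε * c / 2)) ?_ hGN hy hG hc
    (min_le_left _ _) ?_ h1 h2 (lt_of_le_of_lt hu hξ) (lt_of_le_of_lt hv hξ)
  · intro x y y'
    rw [hG0]
    exact hx x y y'
  · have := min_le_right (c / 4) (ε * c / 2)
    linarith

end Pool.Agent.Helper25.PT
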