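import Pool.Agent.Helper25.PT.Defs

/-! Module PT-Move -/

set_option autoImplicit false
set_option linter.all false

namespace Pool.Agent.Helper25.PT

open Pool.Agent.Helper25.PH (IsHom HomTo)

private theorem Move_bor {a : ℕ} {δ : ℝ} (x y : Sp a) : Bor a δ x y ↔ dist x (-y) < δ := by
  unfold Bor
  rw [Subtype.dist_eq, dist_eq_norm]
  simp

private theorem Move_st {a : ℕ} (X : Act a) {F V : Type} {E : V → V → Prop} {ε : ℝ}
    {f : (F → Sp a) → V} (hf : IsHom (PR (Bor a (2 * ε)) F) E f) (A : Set F)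
    (σ τ : F → X.K) (h : ∀ j (x : Sp a), dist (σ j • x) (τ j • x) < ε) :
    St (Nu a ε) E (fun p => f (bs X σ A p.1 p.2)) (fun p => f (bs X τ A p.1 p.2)) := by
  classical
  intro p q hpq
  refine hf _ _ ?_
  intro j
  have key : ∀ z z' : Sp a, Bor a ε z z' → Bor a (2 * ε) (σ j • z) (τ j • z') := by
    intro z z' hz
    rw [Move_bor] at hz ⊢
    rw [← X.smul_neg]
    have h1 : dist (σ j • z) (σ j • (-z')) < ε := by
      rw [X.dist_smul]
      exact hz
    have h2 := h j (-z')
    have h3 := dist_triangle (σ j • z) (σ j • (-z')) (τ j • (-z'))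
    linarith
  unfold bs
  by_cases hj : j ∈ A
  · simp only [hj, if_true]
    exact key _ _ hpq.2
  · simp only [hj, if_false]
    exact key _ _ hpq.1

private theorem Move_step {a : ℕ} (X : Act a) {F V : Type} {E : V → V → Prop} {ε : ℝ}
    (hε : 0 < ε)
    {f : (F → Sp a) → V} (hf : IsHom (PR (Bor a (2 * ε)) F) E f) (A : Set F)
    (σ τ : F → X.K) (h : ∀ j (x : Sp a), dist (σ j • x) (τ j • x) < ε) :
    Step (Nu a ε) E (fun p => f (bs X σ A p.1 p.2)) (fun p => f (bs X τ A p.1 p.2)) := by
  refine ⟨?_, ?_, ?_, ?_⟩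
  · exact Move_st X hf A σ σ (fun j x => by rw [dist_self]; exact hε)
  · exact Move_st X hf A τ τ (fun j x => by rw [dist_self]; exact hε)
  · exact Move_st X hf A σ τ h
  · exact Move_st X hf A τ σ (fun j x => by rw [dist_comm]; exact h j x)

private theorem Move_aux {a : ℕ} (X : Act a) {F V : Type} {E : V → V → Prop} {ε : ℝ}
    (hε : 0 < ε)
    {f : (F → Sp a) → V} (hf : IsHom (PR (Bor a (2 * ε)) F) E f) (A : Set F) (n : ℕ) :
    ∀ σ : F → X.K, (∀ j, ∃ l : List X.K, l.length ≤ n ∧ (∀ u ∈ l, ∀ x : Sp a, dist (u • x) x < ε) ∧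
      l.prod = σ j) →
    Ho (Nu a ε) E (fun p => f (bs X (fun _ => 1) A p.1 p.2)) (fun p => f (bs X σ A p.1 p.2)) := by
  induction n with
  | zero =>
    intro σ h
    have h1 : σ = fun _ => 1 := by
      funext j
      obtain ⟨l, hl, -, hp⟩ := h j
      have : l = [] := List.length_eq_zero_iff.1 (Nat.le_zero.1 hl)
      rw [this] at hp
      rw [← hp]
      simp
    rw [h1]
    exact Relation.ReflTransGen.refl
  | succ n ih =>
    intro σ h
    have h1 : ∀ j, ∃ u w : X.K, (∀ x : Sp a, dist (u • x) x < ε) ∧ σ j = u * w ∧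
        ∃ l : List X.K, l.length ≤ n ∧ (∀ u ∈ l, ∀ x : Sp a, dist (u • x) x < ε) ∧
          l.prod = w := by
      intro j
      obtain ⟨l, hl, hs, hp⟩ := h j
      cases l with
      | nil =>
        refine ⟨1, 1, ?_, ?_, [], by simp, by simp, by simp⟩
        · intro x
          rw [one_smul, dist_self]
          exact hε
        · rw [← hp]
          simp
      | cons u l =>
        refine ⟨u, l.prod, hs u (by simp), ?_, l, ?_, ?_, rfl⟩
        · rw [← hp]
          simp
        · simpa using hl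
        · intro v hv
          exact hs v (by simp [hv])
    choose u w hu hσ hw using h1
    refine Relation.ReflTransGen.tail (ih w hw) ?_
    refine Move_step X hε hf A w σ ?_
    intro j x
    rw [hσ j, mul_smul, dist_comm]
    exact hu j (w j • x)

/-- PT-Move. Moving the coordinates by isometries is a homotopy. -/
theorem ho_move {a : ℕ} (X : Act a) {F V : Type} [Finite F] {E : V → V → Prop} {ε : ℝ}
    (hε : 0 < ε) {f : (F → Sp a) → V} (hf : IsHom (PR (Bor a (2 * ε)) F) E f) (ρ : F → X.K)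
    (A : Set F) :
    Ho (Nu a ε) E (bin f A) (fun p => f (bs X ρ A p.1 p.2)) := by
  classical
  have h0 : bin f A = fun p => f (bs X (fun _ => 1) A p.1 p.2) := by
    funext p
    unfold bin
    congr 1
    funext j
    unfold bs
    by_cases hj : j ∈ A
    · simp [hj]
    · simp [hj]
  rw [h0]
  have h1 : ∀ j, ∃ l : List X.K, (∀ u ∈ l, ∀ x : Sp a, dist (u • x) x < ε) ∧ l.prod = ρ j :=
    fun j => X.gen ε hε (ρ j)
  choose l hl hp using h1
  obtain ⟨n, hn⟩ := Finite.exists_le (fun j => (l j).length)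
  exact Move_aux X hε hf A n ρ (fun j => ⟨l j, hn j, hl j, hp j⟩)

end Pool.Agent.Helper25.PT
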