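import Pool.Agent.Helper25.PT.Defs

/-! Module PT-Orth -/

set_option autoImplicit false
set_option linter.all false

namespace Pool.Agent.Helper25.PT

/-- the orthogonal group of `Eu a` -/
noncomputable abbrev Og (a : ℕ) := unitary (Eu a →L[ℝ] Eu a)

noncomputable instance og_cs (a : ℕ) : ContinuousStar (Eu a →L[ℝ] Eu a) :=
  ⟨(LinearIsometryEquiv.continuous
    (ContinuousLinearMap.adjoint (𝕜 := ℝ) (E := Eu a) (F := Eu a)))⟩

noncomputable instance og_tg (a : ℕ) : IsTopologicalGroup (Og a) := inferInstance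

/-- PT-Orth-a. -/
theorem og_norm {a : ℕ} (u : Og a) (x : Eu a) : ‖(u : Eu a →L[ℝ] Eu a) x‖ = ‖x‖ :=
  ContinuousLinearMap.norm_map_of_mem_unitary u.2 x

private theorem orth_fd (a : ℕ) : FiniteDimensional ℝ (Eu a →L[ℝ] Eu a) := inferInstance

private theorem orth_proper (a : ℕ) : ProperSpace (Eu a →L[ℝ] Eu a) :=
  haveI := orth_fd a
  FiniteDimensional.proper ℝ (Eu a →L[ℝ] Eu a)

private theorem orth_closed (a : ℕ) :
    IsClosed ((unitary (Eu a →L[ℝ] Eu a) : Set (Eu a →L[ℝ] Eu a))) := by
  have h : (unitary (Eu a →L[ℝ] Eu a) : Set (Eu a →L[ℝ] Eu a)) =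
      {u | star u * u = 1} ∩ {u | u * star u = 1} := by
    ext u
    simp [Unitary.mem_iff]
  rw [h]
  exact (isClosed_eq (continuous_star.mul continuous_id) continuous_const).inter
    (isClosed_eq (continuous_id.mul continuous_star) continuous_const)

/-- PT-Orth-b. -/
theorem og_compact (a : ℕ) : CompactSpace (Og a) := by
  haveI := orth_proper a
  have hb : Bornology.IsBounded ((unitary (Eu a →L[ℝ] Eu a) : Set (Eu a →L[ℝ] Eu a))) := by
    refine (Metric.isBounded_closedBall (x := (0 : Eu a →L[ℝ] Eu a)) (r := 1)).subset ?_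
    intro u hu
    rw [mem_closedBall_zero_iff]
    refine ContinuousLinearMap.opNorm_le_bound _ zero_le_one fun x => ?_
    rw [ContinuousLinearMap.norm_map_of_mem_unitary hu x, one_mul]
  exact isCompact_iff_compactSpace.1 (Metric.isCompact_of_isClosed_isBounded (orth_closed a) hb)

/-- PT-Orth-c. -/
theorem og_secondCountable (a : ℕ) : SecondCountableTopology (Og a) := by
  haveI := orth_proper a
  haveI : SecondCountableTopology (Eu a →L[ℝ] Eu a) := secondCountable_of_proper
  exact TopologicalSpace.Subtype.secondCountableTopology _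

/-- PT-Orth-d. The reflection of the line `ℝ m`: `z ↦ 2 ⟪m, z⟫ m - z`, as a continuous map on the
sphere. -/
theorem exists_refl (a : ℕ) : ∃ s : Sp a → Og a, Continuous s ∧ ∀ (m : Sp a) (z : Eu a),
    ((s m : Og a) : Eu a →L[ℝ] Eu a) z = (2 * inner ℝ (m : Eu a) z) • (m : Eu a) - z := by
  let T : Eu a → (Eu a →L[ℝ] Eu a) := fun m => (2 : ℝ) • (innerSL ℝ m).smulRight m - 1
  have hT : ∀ m z, T m z = (2 * inner ℝ m z) • m - z := by
    intro m z
    simp [T, mul_smul]
  have hsym : ∀ m, star (T m) = T m := by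
    intro m
    rw [ContinuousLinearMap.star_eq_adjoint]
    refine ((ContinuousLinearMap.eq_adjoint_iff _ _).2 fun x y => ?_).symm
    rw [hT, hT, inner_sub_left, inner_sub_right, real_inner_smul_left, real_inner_smul_right,
      real_inner_comm x m]
    ring
  have hsq : ∀ m : Sp a, T m * T m = 1 := by
    intro m
    have hm : inner ℝ (m : Eu a) (m : Eu a) = 1 := by
      rw [real_inner_self_eq_norm_sq, norm_eq_of_mem_sphere m]
      norm_num
    refine ContinuousLinearMap.ext fun z => ?_
    change T m (T m z) = z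
    rw [hT, hT, inner_sub_right, real_inner_smul_right, hm]
    have h2 : 2 * (2 * inner ℝ (m : Eu a) z * 1 - inner ℝ (m : Eu a) z) =
        2 * inner ℝ (m : Eu a) z := by ring
    rw [h2]
    abel
  refine ⟨fun m => ⟨T m, ?_⟩, ?_, fun m z => hT m z⟩
  · rw [Unitary.mem_iff, hsym]
    exact ⟨hsq m, hsq m⟩
  · refine Continuous.subtype_mk ?_ _
    rw [continuous_clm_apply]
    intro z
    have h3 : (fun m : Sp a => T m z) = fun m : Sp a => (2 * inner ℝ (m : Eu a) z) • (m : Eu a) - z := by
      funext m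
      exact hT m z
    rw [h3]
    fun_prop

end Pool.Agent.Helper25.PT
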