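import Pool.Agent.Helper25.PT.Defs

/-! Module PT-Seq -/

set_option autoImplicit false
set_option linter.all false

namespace Pool.Agent.Helper25.PT

/-- PT-Seq. A homotopy as a sequence. -/
theorem ho_seq {P V : Type} {ν : P → P → Prop} {E : V → V → Prop} {g g' : P → V}
    (h : Ho ν E g g') (hg : St ν E g g) : ∃ (N : ℕ) (G : ℕ → P → V), 1 ≤ N ∧ G 0 = g ∧
      (∀ s, N ≤ s → G s = g') ∧ ∀ s t, s ≤ t + 1 → t ≤ s + 1 → St ν E (G s) (G t) := by
  induction h with
  | refl => exact ⟨1, fun _ => g, le_refl _, rfl, fun _ _ => rfl, fun _ _ _ _ => hg⟩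
  | @tail b c _ hbc ih =>
    obtain ⟨N, G, hN, h0, hG, hst⟩ := ih
    obtain ⟨hbb, hcc, hbc', hcb⟩ := hbc
    refine ⟨N + 1, fun s => if s ≤ N then G s else c, by omega, ?_, ?_, ?_⟩
    · simp [h0]
    · intro s hs
      have : ¬ s ≤ N := by omega
      simp [this]
    · intro s t hst1 hst2
      by_cases hs : s ≤ N
      · by_cases ht : t ≤ N
        · simpa [hs, ht] using hst s t hst1 hst2
        · have hsN : s = N := by omega
          have : G s = b := hG s (by omega)
          simpa [hs, ht, this] using hbc'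
      · by_cases ht : t ≤ N
        · have : G t = b := hG t (by omega)
          simpa [hs, ht, this] using hcb
        · simpa [hs, ht] using hcc

end Pool.Agent.Helper25.PT
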