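import Pool.Agent.Helper25.PT.Defs

/-! Module PT-Words -/

set_option autoImplicit false
set_option linter.all false

namespace Pool.Agent.Helper25.PT

/-- PT-Words. Finitely many small elements whose words of bounded length move every point
arbitrarily close to every point. -/
theorem words {a : ℕ} (X : Act a) (η : ℝ) (hη : 0 < η) :
    ∃ (r L : ℕ) (ψ : Fin (r + 1) → X.K), ψ 0 = 1 ∧ (∀ l (x : Sp a), dist (ψ l • x) x < η) ∧
      ∀ p q : Sp a, ∃ w : List (Fin (r + 1)), w.length ≤ L ∧
        dist ((w.map ψ).prod • p) q < η := by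
  classical
  obtain ⟨T, hT, hnet⟩ := X.net η hη
  choose l hl hprod using X.gen η hη
  set M : List X.K := hT.toFinset.toList.flatMap l with hM
  have hMs : ∀ u ∈ M, ∀ x : Sp a, dist (u • x) x < η := by
    intro u hu x
    rw [hM, List.mem_flatMap] at hu
    obtain ⟨t, -, hut⟩ := hu
    exact hl t u hut x
  refine ⟨M.length, hT.toFinset.sup (fun t => (l t).length),
    fun i => (1 :: M).get i, rfl, ?_, ?_⟩
  · intro i x
    have hmem : (1 :: M).get i ∈ (1 :: M) := List.get_mem _ _
    rcases List.mem_cons.1 hmem with h | h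
    · show dist ((1 :: M).get i • x) x < η
      rw [h, one_smul, dist_self]
      exact hη
    · exact hMs _ h x
  · intro p q
    obtain ⟨k, hk⟩ := X.trans p q
    obtain ⟨t, htT, ht⟩ := hnet k
    have h1 : l t ∈ Set.range (List.map (fun i : Fin (M.length + 1) => (1 :: M).get i)) := by
      rw [Set.range_list_map]
      intro u hu
      have hu2 : u ∈ (1 :: M) := by
        refine List.mem_cons_of_mem _ ?_
        rw [hM, List.mem_flatMap]
        exact ⟨t, by simpa using htT, hu⟩
      obtain ⟨i, hi⟩ := List.get_of_mem hu2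
      exact ⟨i, hi⟩
    obtain ⟨w, hw⟩ := h1
    refine ⟨w, ?_, ?_⟩
    · have h2 : w.length = (l t).length := by rw [← hw, List.length_map]
      rw [h2]
      exact Finset.le_sup (f := fun t => (l t).length) (by simpa using htT)
    · rw [hw, hprod, ← hk]
      exact ht p

end Pool.Agent.Helper25.PT
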